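import Mathlib

/-!
Explicit dense vertex-critical graphs: the construction and its chromatic properties.
-/

namespace Pool.Agent.NH74.F053

/-- The vertices of the graph: `K` indexes the parts of the dense core. -/
inductive Vx (K : Type) (q L : ℕ) : Type
  | inf : Vx K q L
  | ch (i : Fin L) : Vx K q L
  | rho (s : K) : Vx K q L
  | rhoP (s : K) : Vx K q L
  | w (s : K) : Vx K q L
  | h (s : K) : Vx K q L
  | a (s : K) (i j : ZMod q) : Vx K q L
  | x (s : K) (i : ZMod q) : Vx K q L
  | y (s : K) (j : ZMod q) : Vx K q L
  | z (s : K) (i : ZMod q) : Vx K q L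
  | zP (s : K) (j : ZMod q) : Vx K q L
  deriving DecidableEq

open Vx

variable {K : Type} {q L : ℕ}

/-- The part of a core vertex. -/
def part : Vx K q L → Option K
  | .rho s => some s
  | .rhoP s => some s
  | .a s _ _ => some s
  | _ => none

/-- The (oriented) edges of the graph. -/
inductive E (t : K → K) (c : ℕ → Option K) : Vx K q L → Vx K q L → Prop
  | core (u v : Vx K q L) (s r : K) (hu : part u = some s) (hv : part v = some r)
      (h : s ≠ r) : E t c u v
  | inf_rho (s : K) : E t c .inf (.rho s)
  | ch_zero (h : 0 < L) : E t c (.ch ⟨0, h⟩) .inf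
  | ch_succ (i : ℕ) (h : i + 1 < L) : E t c (.ch ⟨i + 1, h⟩) (.ch ⟨i, Nat.lt_of_succ_lt h⟩)
  | ch_rho (i : Fin L) (r : K) (h1 : some r ≠ c i) (h2 : some r ≠ c (i + 1)) :
      E t c (.ch i) (.rho r)
  | ch_inf (i : Fin L) (h1 : none ≠ c i) (h2 : none ≠ c (i + 1)) : E t c (.ch i) .inf
  | h_ch (s : K) (i : Fin L) (hi : i.val + 1 = L) : E t c (.h s) (.ch i)
  | h_w (s : K) : E t c (.h s) (.w s)
  | h_rhoP (s r : K) (h : r ≠ s) : E t c (.h s) (.rhoP r)
  | w_rho (s r : K) (h : r ≠ s) : E t c (.w s) (.rho r)
  | x_w (s : K) (i : ZMod q) : E t c (.x s i) (.w s)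
  | x_rho (s r : K) (i : ZMod q) (h1 : r ≠ s) (h2 : r ≠ t s) : E t c (.x s i) (.rho r)
  | x_z (s : K) (i : ZMod q) : E t c (.x s i) (.z s i)
  | x_a (s : K) (i j : ZMod q) : E t c (.x s i) (.a s i j)
  | y_rho (s r : K) (j : ZMod q) (h : r ≠ t s) : E t c (.y s j) (.rho r)
  | y_zP (s : K) (j : ZMod q) : E t c (.y s j) (.zP s j)
  | y_a (s : K) (i j : ZMod q) : E t c (.y s j) (.a s i j)
  | z_rho (s r : K) (i : ZMod q) (h1 : r ≠ s) (h2 : r ≠ t s) : E t c (.z s i) (.rho r)
  | z_succ (s : K) (i : ZMod q) : E t c (.z s i) (.z s (i + 1))
  | zP_rho (s r : K) (i : ZMod q) (h1 : r ≠ s) (h2 : r ≠ t s) : E t c (.zP s i) (.rho r)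
  | zP_succ (s : K) (i : ZMod q) : E t c (.zP s i) (.zP s (i + 1))

/-- The graph. -/
def G (t : K → K) (c : ℕ → Option K) : SimpleGraph (Vx K q L) :=
  SimpleGraph.fromRel (E t c)

theorem adj_of_E {t : K → K} {c : ℕ → Option K} {u v : Vx K q L} (h : E t c u v)
    (hne : u ≠ v) : (G t c).Adj u v := by
  rw [G, SimpleGraph.fromRel_adj]
  exact ⟨hne, Or.inl h⟩

/-- An odd closed walk has no proper two-colouring. -/
theorem odd_cycle {q : ℕ} (hq : Odd q) (f : ZMod q → Prop)
    (hf : ∀ i, f (i + 1) ↔ ¬ f i) : False := by
  have key : ∀ n : ℕ, (f (n : ZMod q) ↔ (f 0 ↔ Even n)) := by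
    intro n
    induction n with
    | zero => simp
    | succ n ih =>
      have h1 := hf (n : ZMod q)
      have h2 : ((n + 1 : ℕ) : ZMod q) = (n : ZMod q) + 1 := by push_cast; rfl
      rw [h2, h1, ih, Nat.even_add_one]
      tauto
  have h3 := key q
  rw [ZMod.natCast_self] at h3
  have h4 : ¬ Even q := Nat.not_even_iff_odd.mpr hq
  tauto

section noncol

variable [DecidableEq K] [Fintype K] [Nonempty K]

/-- No proper colouring with `|K| + 1` colours in normal form. -/
theorem not_col_normal (hq : Odd q) (hq1 : 1 < q) (hL : 0 < L) (t : K → K)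
    (c : ℕ → Option K) (hc0 : c 0 = none) (hcL : c L = none)
    (f : Vx K q L → Option K) (hf : ∀ u v, u ≠ v → E t c u v → f u ≠ f v)
    (hrho : ∀ s, f (.rho s) = some s) (hinf : f .inf = none) : False := by
  -- the chain is forced
  have hch : ∀ (i : ℕ) (hi : i < L), f (.ch ⟨i, hi⟩) = c (i + 1) := by
    have hmem : ∀ (i : Fin L), f (.ch i) ≠ c i → f (.ch i) = c (i + 1) := by
      intro i hne
      by_contra hne'
      rcases hfi : f (.ch i) with _ | r
      · have h1 := hf (.ch i) .inf (by simp) (E.ch_inf i (by rw [← hfi]; exact hne)
          (by rw [← hfi]; exact hne'))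
        rw [hinf] at h1
        exact h1 hfi
      · have h1 := hf (.ch i) (.rho r) (by simp) (E.ch_rho i r (by rw [← hfi]; exact hne)
          (by rw [← hfi]; exact hne'))
        rw [hrho] at h1
        exact h1 hfi
    intro i
    induction i with
    | zero =>
      intro hi
      apply hmem ⟨0, hi⟩
      have h1 := hf (.ch ⟨0, hi⟩) .inf (by simp) (E.ch_zero hi)
      rw [hinf] at h1
      simpa [hc0] using h1
    | succ i ih =>
      intro hi
      apply hmem ⟨i + 1, hi⟩
      have h1 := hf (.ch ⟨i + 1, hi⟩) (.ch ⟨i, Nat.lt_of_succ_lt hi⟩) (by simp) (E.ch_succ i hi)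
      rw [ih (Nat.lt_of_succ_lt hi)] at h1
      exact h1
  -- core vertices
  have hcore : ∀ (u : Vx K q L) (s : K), part u = some s → f u = some s ∨ f u = none := by
    intro u s hu
    rcases hfu : f u with _ | r
    · right; rfl
    · left
      by_contra hne
      have hne' : s ≠ r := fun h => hne (by rw [h])
      have hune : u ≠ .rho r := by
        rintro rfl
        simp only [part, Option.some.injEq] at hu
        exact hne' hu.symm
      have h1 := hf u (.rho r) hune (E.core u (.rho r) s r hu rfl hne')
      rw [hrho] at h1
      exact h1 hfu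
  obtain ⟨s, hs⟩ : ∃ s : K, ∀ r, r ≠ s → f (.rhoP r) = some r := by
    by_cases hall : ∀ r, f (.rhoP r) = some r
    · exact ⟨Classical.arbitrary K, fun r _ => hall r⟩
    · push Not at hall
      obtain ⟨s, hs⟩ := hall
      refine ⟨s, fun r hr => ?_⟩
      rcases hcore (.rhoP r) r rfl with h1 | h1
      · exact h1
      · exfalso
        rcases hcore (.rhoP s) s rfl with h2 | h2
        · exact hs h2
        · have h3 := hf (.rhoP r) (.rhoP s) (by simp [hr]) (E.core _ _ r s rfl rfl hr)
          rw [h1, h2] at h3
          exact h3 rfl
  have hh : f (.h s) = some s := by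
    rcases hfh : f (.h s) with _ | r
    · exfalso
      have h1 := hf (.h s) (.ch ⟨L - 1, by omega⟩) (by simp)
        (E.h_ch s ⟨L - 1, by omega⟩ (by simp; omega))
      rw [hch (L - 1) (by omega), hfh, show L - 1 + 1 = L by omega, hcL] at h1
      exact h1 rfl
    · by_contra hne
      have hrs : r ≠ s := fun h => hne (by rw [h])
      have h1 := hf (.h s) (.rhoP r) (by simp) (E.h_rhoP s r hrs)
      rw [hs r hrs] at h1
      exact h1 hfh
  have hw : f (.w s) = none := by
    rcases hfw : f (.w s) with _ | r
    · rfl
    · exfalso
      by_cases hrs : r = s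
      · have h1 := hf (.h s) (.w s) (by simp) (E.h_w s)
        rw [hh, hfw, hrs] at h1
        exact h1 rfl
      · have h1 := hf (.w s) (.rho r) (by simp) (E.w_rho s r hrs)
        rw [hrho] at h1
        exact h1 hfw
  have hx : ∀ i, f (.x s i) = some s ∨ f (.x s i) = some (t s) := by
    intro i
    rcases hfx : f (.x s i) with _ | r
    · exfalso
      have h1 := hf (.x s i) (.w s) (by simp) (E.x_w s i)
      rw [hw] at h1
      exact h1 hfx
    · by_contra hne
      push Not at hne
      have h1 := hf (.x s i) (.rho r) (by simp)
        (E.x_rho s r i (fun h => hne.1 (by rw [h])) (fun h => hne.2 (by rw [h])))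
      rw [hrho] at h1
      exact h1 hfx
  have hy : ∀ j, f (.y s j) = none ∨ f (.y s j) = some (t s) := by
    intro j
    rcases hfx : f (.y s j) with _ | r
    · left; rfl
    · right
      by_contra hne
      have h1 := hf (.y s j) (.rho r) (by simp)
        (E.y_rho s r j (fun h => hne (by rw [h])))
      rw [hrho] at h1
      exact h1 hfx
  have h01 : ∀ i : ZMod q, i ≠ i + 1 := by
    have : Fact (1 < q) := ⟨hq1⟩
    intro i hi
    have : (1 : ZMod q) = 0 := by
      have h2 : i + 0 = i + 1 := by rw [add_zero]; exact hi
      exact (add_left_cancel h2).symm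
    exact one_ne_zero this
  obtain ⟨i, hi⟩ : ∃ i, f (.x s i) = some s := by
    by_contra hno
    push Not at hno
    have hx' : ∀ i, f (.x s i) = some (t s) := fun i => (hx i).resolve_left (hno i)
    have hz : ∀ i, f (.z s i) = none ∨ f (.z s i) = some s := by
      intro i
      rcases hfx : f (.z s i) with _ | r
      · left; rfl
      · right
        by_contra hne
        by_cases hrt : r = t s
        · have h1 := hf (.x s i) (.z s i) (by simp) (E.x_z s i)
          rw [hx' i, hfx, hrt] at h1
          exact h1 rfl
        · have h1 := hf (.z s i) (.rho r) (by simp)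
            (E.z_rho s r i (fun h => hne (by rw [h])) hrt)
          rw [hrho] at h1
          exact h1 hfx
    apply odd_cycle hq (fun i => f (.z s i) = none)
    intro i
    have h1 := hf (.z s i) (.z s (i + 1)) (by simpa using h01 i) (E.z_succ s i)
    constructor
    · intro h2 h3
      rw [h2, h3] at h1
      exact h1 rfl
    · intro h2
      rcases hz i with h3 | h3
      · exact absurd h3 h2
      · rcases hz (i + 1) with h4 | h4
        · exact h4
        · rw [h3, h4] at h1
          exact absurd rfl h1
  obtain ⟨j, hj⟩ : ∃ j, f (.y s j) = none := by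
    by_contra hno
    push Not at hno
    have hx' : ∀ i, f (.y s i) = some (t s) := fun i => (hy i).resolve_left (hno i)
    have hz : ∀ i, f (.zP s i) = none ∨ f (.zP s i) = some s := by
      intro i
      rcases hfx : f (.zP s i) with _ | r
      · left; rfl
      · right
        by_contra hne
        by_cases hrt : r = t s
        · have h1 := hf (.y s i) (.zP s i) (by simp) (E.y_zP s i)
          rw [hx' i, hfx, hrt] at h1
          exact h1 rfl
        · have h1 := hf (.zP s i) (.rho r) (by simp)
            (E.zP_rho s r i (fun h => hne (by rw [h])) hrt)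
          rw [hrho] at h1
          exact h1 hfx
    apply odd_cycle hq (fun i => f (.zP s i) = none)
    intro i
    have h1 := hf (.zP s i) (.zP s (i + 1)) (by simpa using h01 i) (E.zP_succ s i)
    constructor
    · intro h2 h3
      rw [h2, h3] at h1
      exact h1 rfl
    · intro h2
      rcases hz i with h3 | h3
      · exact absurd h3 h2
      · rcases hz (i + 1) with h4 | h4
        · exact h4
        · rw [h3, h4] at h1
          exact absurd rfl h1
  rcases hcore (.a s i j) s rfl with h1 | h1
  · have h2 := hf (.x s i) (.a s i j) (by simp) (E.x_a s i j)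
    rw [hi, h1] at h2
    exact h2 rfl
  · have h2 := hf (.y s j) (.a s i j) (by simp) (E.y_a s i j)
    rw [hj, h1] at h2
    exact h2 rfl

/-- The graph is not `(|K| + 1)`-colourable. -/
theorem not_col (hq : Odd q) (hq1 : 1 < q) (hL : 0 < L) (t : K → K)
    (c : ℕ → Option K) (hc0 : c 0 = none) (hcL : c L = none) :
    ¬ Nonempty ((G t c : SimpleGraph (Vx K q L)).Coloring (Option K)) := by
  rintro ⟨C⟩
  have hC : ∀ u v : Vx K q L, u ≠ v → E t c u v → C u ≠ C v :=
    fun u v hne h => C.valid (adj_of_E h hne)
  have hinf : ∀ s : K, C .inf ≠ C (.rho s) := fun s => hC _ _ (by simp) (E.inf_rho s)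
  have hrr : ∀ s r : K, s ≠ r → C (.rho s) ≠ C (.rho r) := fun s r hsr =>
    hC _ _ (by simpa using hsr) (E.core _ _ s r rfl rfl hsr)
  let g : Option K → Option K := fun o => match o with
    | none => C .inf
    | some s => C (.rho s)
  have hg : Function.Injective g := by
    rintro (_ | s) (_ | r) hgr
    · rfl
    · exact absurd hgr (hinf r)
    · exact absurd hgr.symm (hinf s)
    · by_contra hne
      exact hrr s r (fun h => hne (by rw [h])) hgr
  have hgb : Function.Bijective g := Finite.injective_iff_bijective.mp hg
  let e := Equiv.ofBijective g hgb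
  apply not_col_normal hq hq1 hL t c hc0 hcL (fun u => e.symm (C u))
  · intro u v hne h heq
    exact hC u v hne h (e.symm.injective heq)
  · intro s
    exact (Equiv.symm_apply_eq e).mpr rfl
  · exact (Equiv.symm_apply_eq e).mpr rfl

end noncol

section col

variable [DecidableEq K]

/-- The colouring of an odd cycle with the colour `A` only at `i0`. -/
def cyc (i0 : ZMod q) (A B C : Option K) (i : ZMod q) : Option K :=
  if i = i0 then A else if (i - i0).val % 2 = 1 then B else C

omit [DecidableEq K] in
theorem cyc_succ (hq : Odd q) (hq1 : 1 < q) (i0 : ZMod q) {A B C : Option K} (hAB : A ≠ B)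
    (hAC : A ≠ C) (hBC : B ≠ C) (i : ZMod q) : cyc i0 A B C i ≠ cyc i0 A B C (i + 1) := by
  have : NeZero q := ⟨by omega⟩
  have hsub : i + 1 - i0 = (i - i0) + 1 := by ring
  have hlt := ZMod.val_lt (i - i0)
  by_cases hd : (i - i0).val = q - 1
  · -- the step back to `i0`
    have h1 : i + 1 = i0 := by
      have h2 : ((i - i0).val : ZMod q) = i - i0 := ZMod.natCast_zmod_val _
      rw [hd] at h2
      have h3 : ((q - 1 : ℕ) : ZMod q) + 1 = 0 := by
        have h4 : ((q - 1 : ℕ) : ZMod q) + 1 = ((q - 1 + 1 : ℕ) : ZMod q) := by push_cast; rfl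
        rw [h4, show q - 1 + 1 = q by omega, ZMod.natCast_self]
      rw [h2] at h3
      have h5 : i + 1 - i0 = 0 := by rw [hsub]; exact h3
      exact sub_eq_zero.mp h5
    have h2 : i ≠ i0 := by
      rintro rfl
      simp only [sub_self, ZMod.val_zero] at hd
      omega
    have h3 : ¬ ((i - i0).val % 2 = 1) := by
      rw [hd]
      obtain ⟨l, hl⟩ := hq
      omega
    rw [cyc, cyc, if_neg h2, if_neg h3, if_pos h1]
    exact hAC.symm
  · have h1 : (i + 1 - i0).val = (i - i0).val + 1 := by
      rw [hsub]
      have h2 : (1 : ZMod q).val = 1 := by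
        have : Fact (1 < q) := ⟨hq1⟩
        exact ZMod.val_one q
      rw [ZMod.val_add_of_lt (by rw [h2]; omega), h2]
    have h3 : i + 1 ≠ i0 := by
      intro h
      rw [h, sub_self, ZMod.val_zero] at h1
      omega
    by_cases h4 : i = i0
    · have h5 : (i + 1 - i0).val % 2 = 1 := by
        rw [h1, h4, sub_self, ZMod.val_zero]
      rw [cyc, cyc, if_pos h4, if_neg h3, if_pos h5]
      exact hAB
    · rw [cyc, cyc, if_neg h4, if_neg h3, h1]
      rcases Nat.mod_two_eq_zero_or_one (i - i0).val with h6 | h6
      · rw [if_neg (by omega), if_pos (by omega)]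
        exact hBC.symm
      · rw [if_pos h6, if_neg (by omega)]
        exact hBC

/-- A general colouring of the graph. -/
def col (t : K → K) (cinf : Option K) (chc : ℕ → Option K) (rP hh ww : K → Option K)
    (xx : K → ZMod q → Option K) (z0 : K → ZMod q) (yy : K → ZMod q → Option K)
    (zP0 : K → ZMod q) (aa : K → ZMod q → ZMod q → Option K) : Vx K q L → Option K
  | .inf => cinf
  | .ch i => chc i
  | .rho s => some s
  | .rhoP s => rP s
  | .w s => ww s
  | .h s => hh s
  | .a s i j => aa s i j
  | .x s i => xx s i
  | .y s j => yy s j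
  | .z s i => cyc (z0 s) (some (t s)) (some s) none i
  | .zP s j => cyc (zP0 s) (some (t s)) (some s) none j

omit [DecidableEq K] in
theorem col_good (hq : Odd q) (hq1 : 1 < q) (t : K → K) (ht : ∀ s, t s ≠ s)
    (c : ℕ → Option K) (v : Vx K q L)
    (cinf : Option K) (chc : ℕ → Option K) (rP hh ww : K → Option K)
    (xx : K → ZMod q → Option K) (z0 : K → ZMod q) (yy : K → ZMod q → Option K)
    (zP0 : K → ZMod q) (aa : K → ZMod q → ZMod q → Option K) (s0 : K)
    (hrP : ∀ r, rP r = some r ∨ (r = s0 ∧ rP r = none))
    (haa : ∀ r i j, aa r i j = some r ∨ (r = s0 ∧ aa r i j = none))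
    (hinf : ∀ s, .rho s ≠ v → .inf ≠ v → cinf ≠ some s)
    (hch0 : ∀ h : 0 < L, .ch ⟨0, h⟩ ≠ v → .inf ≠ v → chc 0 ≠ cinf)
    (hchs : ∀ (i : ℕ) (h : i + 1 < L), .ch ⟨i + 1, h⟩ ≠ v → .ch ⟨i, Nat.lt_of_succ_lt h⟩ ≠ v →
      chc (i + 1) ≠ chc i)
    (hchr : ∀ i : Fin L, .ch i ≠ v → ∀ r, .rho r ≠ v → some r ≠ c i → some r ≠ c (i + 1) →
      chc i ≠ some r)
    (hchi : ∀ i : Fin L, .ch i ≠ v → .inf ≠ v → none ≠ c i → none ≠ c (i + 1) → chc i ≠ cinf)
    (hhch : ∀ (s : K) (i : Fin L), i.val + 1 = L → .h s ≠ v → .ch i ≠ v → hh s ≠ chc i)
    (hhw : ∀ s, .h s ≠ v → .w s ≠ v → hh s ≠ ww s)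
    (hhr : ∀ s r, r ≠ s → .h s ≠ v → .rhoP r ≠ v → hh s ≠ rP r)
    (hwr : ∀ s, ww s = some s ∨ ww s = none)
    (hxw : ∀ s i, .x s i ≠ v → .w s ≠ v → xx s i ≠ ww s)
    (hxr : ∀ s i, xx s i = some s ∨ xx s i = some (t s) ∨ xx s i = none)
    (hxz : ∀ s i, .x s i ≠ v → .z s i ≠ v → xx s i ≠ cyc (z0 s) (some (t s)) (some s) none i)
    (hxa : ∀ s i j, .x s i ≠ v → .a s i j ≠ v → xx s i ≠ aa s i j)
    (hyr : ∀ s i, yy s i = some (t s) ∨ yy s i = none)
    (hyz : ∀ s i, .y s i ≠ v → .zP s i ≠ v → yy s i ≠ cyc (zP0 s) (some (t s)) (some s) none i)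
    (hya : ∀ s i j, .y s j ≠ v → .a s i j ≠ v → yy s j ≠ aa s i j) :
    ∀ u u' : Vx K q L, E t c u u' → u ≠ v → u' ≠ v →
      col t cinf chc rP hh ww xx z0 yy zP0 aa u ≠ col t cinf chc rP hh ww xx z0 yy zP0 aa u' := by
  have hcore : ∀ (u : Vx K q L) (s : K), part u = some s →
      col t cinf chc rP hh ww xx z0 yy zP0 aa u = some s ∨
        (s = s0 ∧ col t cinf chc rP hh ww xx z0 yy zP0 aa u = none) := by
    intro u s hu
    cases u with
    | rho r =>
      simp only [part, Option.some.injEq] at hu
      subst hu
      left; rfl
    | rhoP r =>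
      simp only [part, Option.some.injEq] at hu
      subst hu
      exact hrP r
    | a r i j =>
      simp only [part, Option.some.injEq] at hu
      subst hu
      exact haa r i j
    | _ => simp [part] at hu
  have hcyc : ∀ (s r : K) (i0 i : ZMod q), r ≠ s → r ≠ t s →
      cyc i0 (some (t s)) (some s) none i ≠ some r := by
    intro s r i0 i h1 h2
    rw [cyc]
    split_ifs
    · simpa using h2.symm
    · simpa using h1.symm
    · simp
  intro u u' h hu hu'
  cases h with
  | core _ _ s r hus hvr hsr =>
    rcases hcore u s hus with h1 | ⟨h0, h1⟩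
    · rcases hcore u' r hvr with h2 | ⟨h0', h2⟩
      · rw [h1, h2]; simpa using hsr
      · rw [h1, h2]; simp
    · rcases hcore u' r hvr with h2 | ⟨h0', h2⟩
      · rw [h1, h2]; simp
      · exact absurd (h0.trans h0'.symm) hsr
  | inf_rho s => exact hinf s hu' hu
  | ch_zero h => exact hch0 h hu hu'
  | ch_succ i h => exact hchs i h hu hu'
  | ch_rho i r h1 h2 => exact hchr i hu r hu' h1 h2
  | ch_inf i h1 h2 => exact hchi i hu hu' h1 h2
  | h_ch s i hi => exact hhch s i hi hu hu'
  | h_w s => exact hhw s hu hu'
  | h_rhoP s r h => exact hhr s r h hu hu'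
  | w_rho s r h =>
    show ww s ≠ some r
    rcases hwr s with h1 | h1
    · rw [h1]; simpa using h.symm
    · rw [h1]; simp
  | x_w s i => exact hxw s i hu hu'
  | x_rho s r i h1 h2 =>
    show xx s i ≠ some r
    rcases hxr s i with h3 | h3 | h3
    · rw [h3]; simpa using h1.symm
    · rw [h3]; simpa using h2.symm
    · rw [h3]; simp
  | x_z s i => exact hxz s i hu hu'
  | x_a s i j => exact hxa s i j hu hu'
  | y_rho s r i h =>
    show yy s i ≠ some r
    rcases hyr s i with h3 | h3
    · rw [h3]; simpa using h.symm
    · rw [h3]; simp
  | y_zP s i => exact hyz s i hu hu'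
  | y_a s i j => exact hya s i j hu hu'
  | z_rho s r i h1 h2 => exact hcyc s r _ i h1 h2
  | z_succ s i =>
    exact cyc_succ hq hq1 _ (by simpa using ht s) (by simp) (by simp) i
  | zP_rho s r i h1 h2 => exact hcyc s r _ i h1 h2
  | zP_succ s i =>
    exact cyc_succ hq hq1 _ (by simpa using ht s) (by simp) (by simp) i

omit [DecidableEq K] in
theorem cyc_self (i0 : ZMod q) (A B C : Option K) : cyc i0 A B C i0 = A := by
  rw [cyc, if_pos rfl]

omit [DecidableEq K] in
theorem cyc_of_ne {i0 i : ZMod q} (h : i ≠ i0) (A B C D : Option K) (hB : D ≠ B) (hC : D ≠ C) :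
    D ≠ cyc i0 A B C i := by
  rw [cyc, if_neg h]
  split_ifs
  · exact hB
  · exact hC

omit [DecidableEq K] in
/-- The inactive gadget: `x` against `z`. -/
theorem inact_z (t : K → K) (ht : ∀ s, t s ≠ s) (s : K) (i0 i : ZMod q) :
    (if i = i0 then none else some (t s)) ≠ cyc i0 (some (t s)) (some s) none i := by
  by_cases h : i = i0
  · rw [if_pos h, h, cyc_self]; simp
  · rw [if_neg h]
    exact cyc_of_ne h _ _ _ _ (by simpa using ht s) (by simp)

theorem exists_col (hq : Odd q) (hq1 : 1 < q) (hL : 0 < L) (t : K → K) (ht : ∀ s, t s ≠ s)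
    (c : ℕ → Option K) (hc0 : c 0 = none) (hcL : c L = none)
    (hc : ∀ i < L, c i ≠ c (i + 1)) (v : Vx K q L) [Nonempty K] :
    ∃ f : Vx K q L → Option K, ∀ u u' : Vx K q L, E t c u u' → u ≠ v → u' ≠ v → f u ≠ f u' := by
  have hcl : c (L - 1) ≠ none := by
    have h1 := hc (L - 1) (by omega)
    rw [show L - 1 + 1 = L by omega, hcL] at h1
    exact h1
  cases v with
  | inf =>
    refine ⟨_, col_good hq hq1 t ht c .inf none (fun i => c i) (fun r => some r)
      (fun _ => none) (fun r => some r) (fun s i => if i = 0 then none else some (t s))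
      (fun _ => 0) (fun s i => if i = 0 then none else some (t s)) (fun _ => 0)
      (fun s _ _ => some s) (Classical.arbitrary K) ?_ ?_ ?_ ?_ ?_ ?_ ?_ ?_ ?_ ?_ ?_ ?_ ?_ ?_
      ?_ ?_ ?_ ?_⟩
    · intro r; left; rfl
    · intro r i j; left; rfl
    · intro s _ h; exact absurd rfl h
    · intro _ _ h; exact absurd rfl h
    · intro i h _ _; exact (hc i (by omega)).symm
    · intro i _ r _ h1 h2; exact h1.symm
    · intro i _ h; exact absurd rfl h
    · intro s i hi _ _
      rw [show i.val = L - 1 by omega]
      exact hcl.symm
    · intro s _ _; simp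
    · intro s r _ _ _; simp
    · intro s; left; rfl
    · intro s i _ _
      split_ifs
      · simp
      · simpa using ht s
    · intro s i
      split_ifs
      · right; right; rfl
      · right; left; rfl
    · intro s i _ _
      exact inact_z t ht s 0 i
    · intro s i j _ _
      split_ifs
      · simp
      · simpa using ht s
    · intro s i
      split_ifs
      · right; rfl
      · left; rfl
    · intro s i _ _
      exact inact_z t ht s 0 i
    · intro s i j _ _
      split_ifs
      · simp
      · simpa using ht s
  | ch i0 =>
    refine ⟨_, col_good hq hq1 t ht c (.ch i0) none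
      (fun i => if i < i0.val then c (i + 1) else c i) (fun r => some r)
      (fun _ => none) (fun r => some r) (fun s i => if i = 0 then none else some (t s))
      (fun _ => 0) (fun s i => if i = 0 then none else some (t s)) (fun _ => 0)
      (fun s _ _ => some s) (Classical.arbitrary K) ?_ ?_ ?_ ?_ ?_ ?_ ?_ ?_ ?_ ?_ ?_ ?_ ?_ ?_
      ?_ ?_ ?_ ?_⟩
    · intro r; left; rfl
    · intro r i j; left; rfl
    · intro s _ h; simp
    · intro h h1 _
      have h2 : 0 < i0.val := by
        rcases Nat.eq_zero_or_pos i0.val with h3 | h3
        · exfalso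
          apply h1
          congr 1
          exact Fin.ext h3.symm
        · exact h3
      rw [if_pos h2, ← hc0]
      exact (hc 0 h).symm
    · intro i h h1 h2
      have h3 : i + 1 ≠ i0.val := by
        intro h4
        apply h1
        congr 1
        exact Fin.ext h4
      have h5 : i ≠ i0.val := by
        intro h4
        apply h2
        congr 1
        exact Fin.ext h4
      rcases lt_or_gt_of_ne h5 with h6 | h6
      · rw [if_pos (by omega), if_pos h6]
        exact (hc (i + 1) h).symm
      · rw [if_neg (by omega), if_neg (by omega)]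
        exact (hc i (by omega)).symm
    · intro i _ r _ h1 h2
      split_ifs
      · exact h2.symm
      · exact h1.symm
    · intro i _ _ h1 h2
      split_ifs
      · exact h2.symm
      · exact h1.symm
    · intro s i hi _ h1
      have h2 : i0.val < L := i0.isLt
      rw [if_neg (by omega), show i.val = L - 1 by omega]
      exact hcl.symm
    · intro s _ _; simp
    · intro s r _ _ _; simp
    · intro s; left; rfl
    · intro s i _ _
      split_ifs
      · simp
      · simpa using ht s
    · intro s i
      split_ifs
      · right; right; rfl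
      · right; left; rfl
    · intro s i _ _
      exact inact_z t ht s 0 i
    · intro s i j _ _
      split_ifs
      · simp
      · simpa using ht s
    · intro s i
      split_ifs
      · right; rfl
      · left; rfl
    · intro s i _ _
      exact inact_z t ht s 0 i
    · intro s i j _ _
      split_ifs
      · simp
      · simpa using ht s
  | rho s1 =>
    refine ⟨_, col_good hq hq1 t ht c (.rho s1) (some s1)
      (fun i => Equiv.swap none (some s1) (c (i + 1))) (fun r => some r)
      (fun _ => none) (fun r => some r) (fun s i => if i = 0 then none else some (t s))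
      (fun _ => 0) (fun s i => if i = 0 then none else some (t s)) (fun _ => 0)
      (fun s _ _ => some s) (Classical.arbitrary K) ?_ ?_ ?_ ?_ ?_ ?_ ?_ ?_ ?_ ?_ ?_ ?_ ?_ ?_
      ?_ ?_ ?_ ?_⟩
    · intro r; left; rfl
    · intro r i j; left; rfl
    · intro s h _ h1
      apply h
      rw [Option.some.inj h1]
    · intro h h1 _ h2
      have h3 : Equiv.swap none (some s1) (c (0 + 1)) = Equiv.swap none (some s1) (c 0) := by
        rw [hc0, Equiv.swap_apply_left]
        exact h2
      exact hc 0 h ((Equiv.injective _ h3).symm)
    · intro i h _ _ h2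
      exact hc (i + 1) h ((Equiv.injective _ h2).symm)
    · intro i _ r h3 h1 h2 h4
      rw [Equiv.swap_apply_eq_iff, Equiv.swap_apply_of_ne_of_ne (by simp)
        (by intro h5; apply h3; rw [Option.some.inj h5])] at h4
      exact h2 h4.symm
    · intro i _ _ h1 h2 h4
      rw [Equiv.swap_apply_eq_iff, Equiv.swap_apply_right] at h4
      exact h2 h4.symm
    · intro s i hi _ h1
      rw [hi, hcL, Equiv.swap_apply_left]
      simp
    · intro s _ _; simp
    · intro s r _ _ _; simp
    · intro s; left; rfl
    · intro s i _ _
      split_ifs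
      · simp
      · simpa using ht s
    · intro s i
      split_ifs
      · right; right; rfl
      · right; left; rfl
    · intro s i _ _
      exact inact_z t ht s 0 i
    · intro s i j _ _
      split_ifs
      · simp
      · simpa using ht s
    · intro s i
      split_ifs
      · right; rfl
      · left; rfl
    · intro s i _ _
      exact inact_z t ht s 0 i
    · intro s i j _ _
      split_ifs
      · simp
      · simpa using ht s
  | rhoP s1 =>
    refine ⟨_, col_good hq hq1 t ht c (.rhoP s1) none
      (fun i => c (i + 1)) (fun r => if r = t s1 then none else some r)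
      (fun r => if r = s1 then some (t s1) else some s1) (fun r => some r)
      (fun s i => if i = 0 then none else some (t s))
      (fun _ => 0) (fun s i => if i = 0 then none else some (t s)) (fun _ => 0)
      (fun s _ _ => some s) (t s1) ?_ ?_ ?_ ?_ ?_ ?_ ?_ ?_ ?_ ?_ ?_ ?_ ?_ ?_
      ?_ ?_ ?_ ?_⟩
    · intro r
      by_cases h : r = t s1
      · right; exact ⟨h, by rw [if_pos h]⟩
      · left; rw [if_neg h]
    · intro r i j; left; rfl
    · intro s _ h; simp
    · intro h h1 _
      rw [← hc0]
      exact (hc 0 h).symm
    · intro i h h1 h2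
      exact (hc (i + 1) h).symm
    · intro i _ r _ h1 h2
      exact h2.symm
    · intro i _ _ h1 h2
      exact h2.symm
    · intro s i hi _ h1
      rw [hi, hcL]
      split_ifs <;> simp
    · intro s _ _
      split_ifs with h
      · rw [h]; simpa using ht s1
      · simpa using fun h' => h h'.symm
    · intro s r hrs _ hr1
      have hr1' : r ≠ s1 := fun h => hr1 (by rw [h])
      by_cases h1 : s = s1
      · rw [if_pos h1]
        split_ifs with h2
        · simp
        · simpa using fun h' => h2 h'.symm
      · rw [if_neg h1]
        split_ifs with h2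
        · simp
        · simpa using hr1'.symm
    · intro s; left; rfl
    · intro s i _ _
      split_ifs
      · simp
      · simpa using ht s
    · intro s i
      split_ifs
      · right; right; rfl
      · right; left; rfl
    · intro s i _ _
      exact inact_z t ht s 0 i
    · intro s i j _ _
      split_ifs
      · simp
      · simpa using ht s
    · intro s i
      split_ifs
      · right; rfl
      · left; rfl
    · intro s i _ _
      exact inact_z t ht s 0 i
    · intro s i j _ _
      split_ifs
      · simp
      · simpa using ht s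
  | w s1 =>
    refine ⟨_, col_good hq hq1 t ht c (.w s1) none
      (fun i => c (i + 1)) (fun r => if r = s1 then none else some r)
      (fun _ => some s1) (fun r => some r)
      (fun s i => if i = 0 then none else some (t s))
      (fun _ => 0) (fun s i => if i = 0 then none else some (t s)) (fun _ => 0)
      (fun s _ _ => some s) s1 ?_ ?_ ?_ ?_ ?_ ?_ ?_ ?_ ?_ ?_ ?_ ?_ ?_ ?_
      ?_ ?_ ?_ ?_⟩
    · intro r
      by_cases h : r = s1
      · right; exact ⟨h, by rw [if_pos h]⟩
      · left; rw [if_neg h]
    · intro r i j; left; rfl
    · intro s _ h; simp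
    · intro h h1 _
      rw [← hc0]
      exact (hc 0 h).symm
    · intro i h h1 h2
      exact (hc (i + 1) h).symm
    · intro i _ r _ h1 h2
      exact h2.symm
    · intro i _ _ h1 h2
      exact h2.symm
    · intro s i hi _ h1
      rw [hi, hcL]
      simp
    · intro s _ h1
      have hr1' : s ≠ s1 := fun h => h1 (by rw [h])
      simpa using hr1'.symm
    · intro s r hrs _ hr1
      split_ifs with h2
      · simp
      · simpa using fun h' => h2 h'.symm
    · intro s; left; rfl
    · intro s i _ _
      split_ifs
      · simp
      · simpa using ht s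
    · intro s i
      split_ifs
      · right; right; rfl
      · right; left; rfl
    · intro s i _ _
      exact inact_z t ht s 0 i
    · intro s i j _ _
      split_ifs
      · simp
      · simpa using ht s
    · intro s i
      split_ifs
      · right; rfl
      · left; rfl
    · intro s i _ _
      exact inact_z t ht s 0 i
    · intro s i j _ _
      split_ifs
      · simp
      · simpa using ht s
  | h s1 =>
    refine ⟨_, col_good hq hq1 t ht c (.h s1) none
      (fun i => c (i + 1)) (fun r => if r = s1 then none else some r)
      (fun _ => some s1) (fun r => some r)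
      (fun s i => if i = 0 then none else some (t s))
      (fun _ => 0) (fun s i => if i = 0 then none else some (t s)) (fun _ => 0)
      (fun s _ _ => some s) s1 ?_ ?_ ?_ ?_ ?_ ?_ ?_ ?_ ?_ ?_ ?_ ?_ ?_ ?_
      ?_ ?_ ?_ ?_⟩
    · intro r
      by_cases h : r = s1
      · right; exact ⟨h, by rw [if_pos h]⟩
      · left; rw [if_neg h]
    · intro r i j; left; rfl
    · intro s _ h; simp
    · intro h h1 _
      rw [← hc0]
      exact (hc 0 h).symm
    · intro i h h1 h2
      exact (hc (i + 1) h).symm
    · intro i _ r _ h1 h2
      exact h2.symm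
    · intro i _ _ h1 h2
      exact h2.symm
    · intro s i hi _ h1
      rw [hi, hcL]
      simp
    · intro s h1 _
      have hr1' : s ≠ s1 := fun h => h1 (by rw [h])
      simpa using hr1'.symm
    · intro s r hrs _ hr1
      split_ifs with h2
      · simp
      · simpa using fun h' => h2 h'.symm
    · intro s; left; rfl
    · intro s i _ _
      split_ifs
      · simp
      · simpa using ht s
    · intro s i
      split_ifs
      · right; right; rfl
      · right; left; rfl
    · intro s i _ _
      exact inact_z t ht s 0 i
    · intro s i j _ _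
      split_ifs
      · simp
      · simpa using ht s
    · intro s i
      split_ifs
      · right; rfl
      · left; rfl
    · intro s i _ _
      exact inact_z t ht s 0 i
    · intro s i j _ _
      split_ifs
      · simp
      · simpa using ht s
  | a s1 i1 j1 =>
    refine ⟨_, col_good hq hq1 t ht c (.a s1 i1 j1) none
      (fun i => c (i + 1)) (fun r => if r = s1 then none else some r)
      (fun _ => some s1) (fun r => if r = s1 then none else some r)
      (fun s i => if s = s1 then (if i = i1 then some s else some (t s)) else
        (if i = 0 then none else some (t s)))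
      (fun s => if s = s1 then i1 else 0)
      (fun s i => if i = (if s = s1 then j1 else 0) then none else some (t s))
      (fun s => if s = s1 then j1 else 0)
      (fun s i _ => if s = s1 ∧ i = i1 then none else some s) s1 ?_ ?_ ?_ ?_ ?_ ?_ ?_ ?_ ?_ ?_
      ?_ ?_ ?_ ?_ ?_ ?_ ?_ ?_⟩
    · intro r
      by_cases h : r = s1
      · right; exact ⟨h, by rw [if_pos h]⟩
      · left; rw [if_neg h]
    · intro r i j
      by_cases h : r = s1 ∧ i = i1
      · right; exact ⟨h.1, by rw [if_pos h]⟩
      · left; rw [if_neg h]
    · intro s _ h; simp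
    · intro h h1 _
      rw [← hc0]
      exact (hc 0 h).symm
    · intro i h h1 h2
      exact (hc (i + 1) h).symm
    · intro i _ r _ h1 h2
      exact h2.symm
    · intro i _ _ h1 h2
      exact h2.symm
    · intro s i hi _ h1
      rw [hi, hcL]
      simp
    · intro s h1 _
      split_ifs with h2
      · simp
      · simpa using fun h' => h2 h'.symm
    · intro s r hrs _ hr1
      split_ifs with h2
      · simp
      · simpa using fun h' => h2 h'.symm
    · intro s
      split_ifs
      · right; rfl
      · left; rfl
    · intro s i _ _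
      split_ifs
      · simp
      · simp
      · simp
      · simpa using ht s
    · intro s i
      split_ifs
      · left; rfl
      · right; left; rfl
      · right; right; rfl
      · right; left; rfl
    · intro s i _ _
      by_cases hs : s = s1
      · rw [if_pos hs, if_pos hs]
        by_cases hi : i = i1
        · rw [if_pos hi, hi, cyc_self]
          simpa using (ht s).symm
        · rw [if_neg hi]
          exact cyc_of_ne hi _ _ _ _ (by simpa using ht s) (by simp)
      · rw [if_neg hs, if_neg hs]
        exact inact_z t ht s 0 i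
    · intro s i j _ _
      by_cases hs : s = s1
      · rw [if_pos hs]
        by_cases hi : i = i1
        · rw [if_pos hi, if_pos ⟨hs, hi⟩]; simp
        · rw [if_neg hi, if_neg (fun h => hi h.2)]
          simpa using ht s
      · rw [if_neg hs, if_neg (show ¬ (s = s1 ∧ i = i1) from fun h => hs h.1)]
        split_ifs
        · simp
        · simpa using ht s
    · intro s i
      split_ifs <;> first | (right; rfl) | (left; rfl)
    · intro s i _ _
      exact inact_z t ht s _ i
    · intro s i j _ hne
      by_cases hs : s = s1
      · rw [if_pos hs]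
        by_cases hj : j = j1
        · rw [if_pos hj]
          have hi : i ≠ i1 := fun h => hne (by rw [hs, h, hj])
          rw [if_neg (fun h => hi h.2)]
          simp
        · rw [if_neg hj]
          split_ifs
          · simp
          · simpa using ht s
      · rw [if_neg hs, if_neg (show ¬ (s = s1 ∧ i = i1) from fun h => hs h.1)]
        split_ifs
        · simp
        · simpa using ht s
  | x s1 i1 =>
    refine ⟨_, col_good hq hq1 t ht c (.x s1 i1) none
      (fun i => c (i + 1)) (fun r => if r = s1 then none else some r)
      (fun _ => some s1) (fun r => if r = s1 then none else some r)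
      (fun s i => if s = s1 then some (t s) else (if i = 0 then none else some (t s)))
      (fun s => if s = s1 then i1 else 0)
      (fun s i => if i = 0 then none else some (t s)) (fun _ => 0)
      (fun s _ _ => some s) s1 ?_ ?_ ?_ ?_ ?_ ?_ ?_ ?_ ?_ ?_
      ?_ ?_ ?_ ?_ ?_ ?_ ?_ ?_⟩
    · intro r
      by_cases h : r = s1
      · right; exact ⟨h, by rw [if_pos h]⟩
      · left; rw [if_neg h]
    · intro r i j; left; rfl
    · intro s _ h; simp
    · intro h h1 _
      rw [← hc0]
      exact (hc 0 h).symm
    · intro i h h1 h2
      exact (hc (i + 1) h).symm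
    · intro i _ r _ h1 h2
      exact h2.symm
    · intro i _ _ h1 h2
      exact h2.symm
    · intro s i hi _ h1
      rw [hi, hcL]
      simp
    · intro s h1 _
      split_ifs with h2
      · simp
      · simpa using fun h' => h2 h'.symm
    · intro s r hrs _ hr1
      split_ifs with h2
      · simp
      · simpa using fun h' => h2 h'.symm
    · intro s
      split_ifs
      · right; rfl
      · left; rfl
    · intro s i _ _
      split_ifs
      · simp
      · simp
      · simpa using ht s
    · intro s i
      split_ifs
      · right; left; rfl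
      · right; right; rfl
      · right; left; rfl
    · intro s i hne _
      by_cases hs : s = s1
      · rw [if_pos hs, if_pos hs]
        have hi : i ≠ i1 := fun h => hne (by rw [hs, h])
        exact cyc_of_ne hi _ _ _ _ (by simpa using ht s) (by simp)
      · rw [if_neg hs, if_neg hs]
        exact inact_z t ht s 0 i
    · intro s i j _ _
      split_ifs
      · simpa using ht s
      · simp
      · simpa using ht s
    · intro s i
      split_ifs <;> first | (right; rfl) | (left; rfl)
    · intro s i _ _
      exact inact_z t ht s _ i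
    · intro s i j _ hne
      split_ifs
      · simp
      · simpa using ht s
  | z s1 i1 =>
    refine ⟨_, col_good hq hq1 t ht c (.z s1 i1) none
      (fun i => c (i + 1)) (fun r => if r = s1 then none else some r)
      (fun _ => some s1) (fun r => if r = s1 then none else some r)
      (fun s i => if s = s1 then some (t s) else (if i = 0 then none else some (t s)))
      (fun s => if s = s1 then i1 else 0)
      (fun s i => if i = 0 then none else some (t s)) (fun _ => 0)
      (fun s _ _ => some s) s1 ?_ ?_ ?_ ?_ ?_ ?_ ?_ ?_ ?_ ?_
      ?_ ?_ ?_ ?_ ?_ ?_ ?_ ?_⟩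
    · intro r
      by_cases h : r = s1
      · right; exact ⟨h, by rw [if_pos h]⟩
      · left; rw [if_neg h]
    · intro r i j; left; rfl
    · intro s _ h; simp
    · intro h h1 _
      rw [← hc0]
      exact (hc 0 h).symm
    · intro i h h1 h2
      exact (hc (i + 1) h).symm
    · intro i _ r _ h1 h2
      exact h2.symm
    · intro i _ _ h1 h2
      exact h2.symm
    · intro s i hi _ h1
      rw [hi, hcL]
      simp
    · intro s h1 _
      split_ifs with h2
      · simp
      · simpa using fun h' => h2 h'.symm
    · intro s r hrs _ hr1
      split_ifs with h2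
      · simp
      · simpa using fun h' => h2 h'.symm
    · intro s
      split_ifs
      · right; rfl
      · left; rfl
    · intro s i _ _
      split_ifs
      · simp
      · simp
      · simpa using ht s
    · intro s i
      split_ifs
      · right; left; rfl
      · right; right; rfl
      · right; left; rfl
    · intro s i _ hne
      by_cases hs : s = s1
      · rw [if_pos hs, if_pos hs]
        have hi : i ≠ i1 := fun h => hne (by rw [hs, h])
        exact cyc_of_ne hi _ _ _ _ (by simpa using ht s) (by simp)
      · rw [if_neg hs, if_neg hs]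
        exact inact_z t ht s 0 i
    · intro s i j _ _
      split_ifs
      · simpa using ht s
      · simp
      · simpa using ht s
    · intro s i
      split_ifs <;> first | (right; rfl) | (left; rfl)
    · intro s i _ _
      exact inact_z t ht s _ i
    · intro s i j _ hne
      split_ifs
      · simp
      · simpa using ht s
  | y s1 i1 =>
    refine ⟨_, col_good hq hq1 t ht c (.y s1 i1) none
      (fun i => c (i + 1)) (fun r => if r = s1 then none else some r)
      (fun _ => some s1) (fun r => if r = s1 then none else some r)
      (fun s i => if s = s1 then (if i = 0 then some s else some (t s)) else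
        (if i = 0 then none else some (t s)))
      (fun _ => 0)
      (fun s i => if s = s1 then some (t s) else (if i = 0 then none else some (t s)))
      (fun s => if s = s1 then i1 else 0)
      (fun s i _ => if s = s1 ∧ i = 0 then none else some s) s1 ?_ ?_ ?_ ?_ ?_ ?_ ?_ ?_ ?_ ?_
      ?_ ?_ ?_ ?_ ?_ ?_ ?_ ?_⟩
    · intro r
      by_cases h : r = s1
      · right; exact ⟨h, by rw [if_pos h]⟩
      · left; rw [if_neg h]
    · intro r i j
      by_cases h : r = s1 ∧ i = 0
      · right; exact ⟨h.1, by rw [if_pos h]⟩
      · left; rw [if_neg h]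
    · intro s _ h; simp
    · intro h h1 _
      rw [← hc0]
      exact (hc 0 h).symm
    · intro i h h1 h2
      exact (hc (i + 1) h).symm
    · intro i _ r _ h1 h2
      exact h2.symm
    · intro i _ _ h1 h2
      exact h2.symm
    · intro s i hi _ h1
      rw [hi, hcL]
      simp
    · intro s h1 _
      split_ifs with h2
      · simp
      · simpa using fun h' => h2 h'.symm
    · intro s r hrs _ hr1
      split_ifs with h2
      · simp
      · simpa using fun h' => h2 h'.symm
    · intro s
      split_ifs
      · right; rfl
      · left; rfl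
    · intro s i _ _
      split_ifs
      · simp
      · simp
      · simp
      · simpa using ht s
    · intro s i
      split_ifs
      · left; rfl
      · right; left; rfl
      · right; right; rfl
      · right; left; rfl
    · intro s i _ _
      by_cases hs : s = s1
      · rw [if_pos hs]
        by_cases hi : i = 0
        · rw [if_pos hi, hi, cyc_self]
          simpa using (ht s).symm
        · rw [if_neg hi]
          exact cyc_of_ne hi _ _ _ _ (by simpa using ht s) (by simp)
      · rw [if_neg hs]
        exact inact_z t ht s 0 i
    · intro s i j _ _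
      by_cases hs : s = s1
      · rw [if_pos hs]
        by_cases hi : i = 0
        · rw [if_pos hi, if_pos ⟨hs, hi⟩]; simp
        · rw [if_neg hi, if_neg (fun h => hi h.2)]
          simpa using ht s
      · rw [if_neg hs, if_neg (show ¬ (s = s1 ∧ i = 0) from fun h => hs h.1)]
        split_ifs
        · simp
        · simpa using ht s
    · intro s i
      split_ifs <;> first | (right; rfl) | (left; rfl)
    · intro s i hne _
      by_cases hs : s = s1
      · rw [if_pos hs, if_pos hs]
        have hi : i ≠ i1 := fun h => hne (by rw [hs, h])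
        exact cyc_of_ne hi _ _ _ _ (by simpa using ht s) (by simp)
      · rw [if_neg hs, if_neg hs]
        exact inact_z t ht s 0 i
    · intro s i j _ _
      by_cases hs : s = s1
      · rw [if_pos hs]
        split_ifs
        · simp
        · simpa using ht s
      · rw [if_neg hs, if_neg (show ¬ (s = s1 ∧ i = 0) from fun h => hs h.1)]
        split_ifs
        · simp
        · simpa using ht s
  | zP s1 i1 =>
    refine ⟨_, col_good hq hq1 t ht c (.zP s1 i1) none
      (fun i => c (i + 1)) (fun r => if r = s1 then none else some r)
      (fun _ => some s1) (fun r => if r = s1 then none else some r)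
      (fun s i => if s = s1 then (if i = 0 then some s else some (t s)) else
        (if i = 0 then none else some (t s)))
      (fun _ => 0)
      (fun s i => if s = s1 then some (t s) else (if i = 0 then none else some (t s)))
      (fun s => if s = s1 then i1 else 0)
      (fun s i _ => if s = s1 ∧ i = 0 then none else some s) s1 ?_ ?_ ?_ ?_ ?_ ?_ ?_ ?_ ?_ ?_
      ?_ ?_ ?_ ?_ ?_ ?_ ?_ ?_⟩
    · intro r
      by_cases h : r = s1
      · right; exact ⟨h, by rw [if_pos h]⟩
      · left; rw [if_neg h]
    · intro r i j
      by_cases h : r = s1 ∧ i = 0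
      · right; exact ⟨h.1, by rw [if_pos h]⟩
      · left; rw [if_neg h]
    · intro s _ h; simp
    · intro h h1 _
      rw [← hc0]
      exact (hc 0 h).symm
    · intro i h h1 h2
      exact (hc (i + 1) h).symm
    · intro i _ r _ h1 h2
      exact h2.symm
    · intro i _ _ h1 h2
      exact h2.symm
    · intro s i hi _ h1
      rw [hi, hcL]
      simp
    · intro s h1 _
      split_ifs with h2
      · simp
      · simpa using fun h' => h2 h'.symm
    · intro s r hrs _ hr1
      split_ifs with h2
      · simp
      · simpa using fun h' => h2 h'.symm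
    · intro s
      split_ifs
      · right; rfl
      · left; rfl
    · intro s i _ _
      split_ifs
      · simp
      · simp
      · simp
      · simpa using ht s
    · intro s i
      split_ifs
      · left; rfl
      · right; left; rfl
      · right; right; rfl
      · right; left; rfl
    · intro s i _ _
      by_cases hs : s = s1
      · rw [if_pos hs]
        by_cases hi : i = 0
        · rw [if_pos hi, hi, cyc_self]
          simpa using (ht s).symm
        · rw [if_neg hi]
          exact cyc_of_ne hi _ _ _ _ (by simpa using ht s) (by simp)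
      · rw [if_neg hs]
        exact inact_z t ht s 0 i
    · intro s i j _ _
      by_cases hs : s = s1
      · rw [if_pos hs]
        by_cases hi : i = 0
        · rw [if_pos hi, if_pos ⟨hs, hi⟩]; simp
        · rw [if_neg hi, if_neg (fun h => hi h.2)]
          simpa using ht s
      · rw [if_neg hs, if_neg (show ¬ (s = s1 ∧ i = 0) from fun h => hs h.1)]
        split_ifs
        · simp
        · simpa using ht s
    · intro s i
      split_ifs <;> first | (right; rfl) | (left; rfl)
    · intro s i _ hne
      by_cases hs : s = s1
      · rw [if_pos hs, if_pos hs]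
        have hi : i ≠ i1 := fun h => hne (by rw [hs, h])
        exact cyc_of_ne hi _ _ _ _ (by simpa using ht s) (by simp)
      · rw [if_neg hs, if_neg hs]
        exact inact_z t ht s 0 i
    · intro s i j _ _
      by_cases hs : s = s1
      · rw [if_pos hs]
        split_ifs
        · simp
        · simpa using ht s
      · rw [if_neg hs, if_neg (show ¬ (s = s1 ∧ i = 0) from fun h => hs h.1)]
        split_ifs
        · simp
        · simpa using ht s

end col

end Pool.Agent.NH74.F053
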