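import Mathlib

/-!
Critical `k`-chromatic graphs and the maximal number of their edges: definitions.
-/

namespace Pool.Agent.NH74.F053

/-- `G` is critical `k`-chromatic (vertex-critical): `χ(G) = k` and `χ(G - x) = k - 1` for every
vertex `x`, where `G - x` is the subgraph induced on the vertices other than `x`. -/
def IsCritical {V : Type} (k : ℕ) (G : SimpleGraph V) : Prop :=
  G.chromaticNumber = (k : ℕ∞) ∧
    ∀ x : V, (G.induce {x}ᶜ).chromaticNumber = ((k - 1 : ℕ) : ℕ∞)

/-- `f_k(n)`: the maximal number of edges of a critical `k`-chromatic graph of order `n`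
(and `0` if there is no such graph). -/
noncomputable def maxEdges (k n : ℕ) : ℕ :=
  sSup {e : ℕ | ∃ G : SimpleGraph (Fin n), IsCritical k G ∧ G.edgeSet.ncard = e}

end Pool.Agent.NH74.F053
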