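import Mathlib
import Pool.Agent.NH74.F053.Defs
import Pool.Agent.NH74.F053.Constr

/-!
The lower bound for the maximal number of edges of a (vertex-)critical `k`-chromatic graph.
-/

namespace Pool.Agent.NH74.F053

theorem critical_of {V : Type} [Nonempty V] (G : SimpleGraph V) (r : ℕ)
    (hnot : ¬ G.Colorable r) (hrem : ∀ x, (G.induce {x}ᶜ).Colorable r) :
    IsCritical (r + 1) G := by
  classical
  have hext : ∀ (x : V) (l : ℕ), (G.induce {x}ᶜ).Colorable l → G.Colorable (l + 1) := by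
    rintro x l ⟨C⟩
    refine ⟨SimpleGraph.Coloring.mk
      (fun u => if h : u = x then Fin.last l else (C ⟨u, h⟩).castSucc) ?_⟩
    intro u v huv
    by_cases hu : u = x
    · by_cases hv : v = x
      · exact absurd (hu.trans hv.symm) huv.ne
      · rw [dif_pos hu, dif_neg hv]
        exact (Fin.castSucc_lt_last _).ne'
    · by_cases hv : v = x
      · rw [dif_neg hu, dif_pos hv]
        exact (Fin.castSucc_lt_last _).ne
      · rw [dif_neg hu, dif_neg hv]
        intro h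
        exact C.valid (v := ⟨u, hu⟩) (w := ⟨v, hv⟩) huv (Fin.castSucc_injective _ h)
  obtain ⟨x0⟩ := (inferInstance : Nonempty V)
  constructor
  · apply le_antisymm
    · exact SimpleGraph.chromaticNumber_le_iff_colorable.mpr (hext x0 r (hrem x0))
    · by_contra hlt
      push Not at hlt
      have h1 : G.chromaticNumber ≤ (r : ℕ∞) := by
        have h2 : G.chromaticNumber < (r : ℕ∞) + 1 := by exact_mod_cast hlt
        exact Order.le_of_lt_add_one h2
      exact hnot (SimpleGraph.chromaticNumber_le_iff_colorable.mp h1)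
  · intro x
    apply le_antisymm
    · exact SimpleGraph.chromaticNumber_le_iff_colorable.mpr (hrem x)
    · by_contra hlt
      push Not at hlt
      simp only [Nat.add_sub_cancel] at hlt
      obtain ⟨l, hl⟩ := ENat.ne_top_iff_exists.mp (ne_top_of_lt hlt)
      rw [← hl] at hlt
      have h1 : l < r := by exact_mod_cast hlt
      have h2 : (G.induce {x}ᶜ).Colorable l :=
        SimpleGraph.chromaticNumber_le_iff_colorable.mp (le_of_eq hl.symm)
      exact hnot ((hext x l h2).mono h1)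

/-- The vertex type as a sum of simple types. -/
def vxEquiv (K : Type) (q L : ℕ) : Vx K q L ≃
    (Unit ⊕ Fin L) ⊕ (Fin 4 × K) ⊕ (K × ZMod q × ZMod q) ⊕ (Fin 4 × K × ZMod q) where
  toFun
    | .inf => .inl (.inl ())
    | .ch i => .inl (.inr i)
    | .rho s => .inr (.inl (0, s))
    | .rhoP s => .inr (.inl (1, s))
    | .w s => .inr (.inl (2, s))
    | .h s => .inr (.inl (3, s))
    | .a s i j => .inr (.inr (.inl (s, i, j)))
    | .x s i => .inr (.inr (.inr (0, s, i)))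
    | .y s i => .inr (.inr (.inr (1, s, i)))
    | .z s i => .inr (.inr (.inr (2, s, i)))
    | .zP s i => .inr (.inr (.inr (3, s, i)))
  invFun
    | .inl (.inl ()) => .inf
    | .inl (.inr i) => .ch i
    | .inr (.inl (0, s)) => .rho s
    | .inr (.inl (1, s)) => .rhoP s
    | .inr (.inl (2, s)) => .w s
    | .inr (.inl (3, s)) => .h s
    | .inr (.inr (.inl (s, i, j))) => .a s i j
    | .inr (.inr (.inr (0, s, i))) => .x s i
    | .inr (.inr (.inr (1, s, i))) => .y s i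
    | .inr (.inr (.inr (2, s, i))) => .z s i
    | .inr (.inr (.inr (3, s, i))) => .zP s i
  left_inv v := by cases v <;> rfl
  right_inv v := by
    rcases v with (u | i) | (⟨b, s⟩ | (⟨s, i, j⟩ | ⟨b, s, i⟩))
    · rfl
    · rfl
    · fin_cases b <;> rfl
    · rfl
    · fin_cases b <;> rfl

/-- The chain colours. -/
def chainCol (m L : ℕ) (i : ℕ) : Option (Fin (m + 2)) :=
  if i = 0 then none else if i = L then none else if i % 2 = 1 then some 0 else some 1

theorem chainCol_succ (m L : ℕ) (hL : 2 ≤ L) (i : ℕ) (hi : i < L) :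
    chainCol m L i ≠ chainCol m L (i + 1) := by
  have h01 : (some 0 : Option (Fin (m + 2))) ≠ some 1 := by simp
  rw [chainCol, chainCol, if_neg (Nat.succ_ne_zero i)]
  rcases Nat.eq_zero_or_pos i with h0 | h0
  · rw [if_pos h0, if_neg (by omega)]
    split_ifs <;> simp
  · rw [if_neg (by omega), if_neg (by omega)]
    by_cases h1 : i + 1 = L
    · rw [if_pos h1]
      split_ifs <;> simp
    · rw [if_neg h1]
      rcases Nat.mod_two_eq_zero_or_one i with h2 | h2
      · rw [if_neg (by omega), if_pos (by omega)]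
        exact h01.symm
      · rw [if_pos h2, if_neg (by omega)]
        exact h01

theorem exists_critical (m q L : ℕ) (hq : Odd q) (hq1 : 1 < q) (hL : 2 ≤ L) (n : ℕ)
    (hn : n = 1 + L + 4 * (m + 2) + (m + 2) * (q * q) + 4 * ((m + 2) * q)) :
    ∃ G : SimpleGraph (Fin n), IsCritical (m + 4) G ∧
      (m + 2) * (m + 1) * q ^ 4 ≤ 2 * G.edgeSet.ncard := by
  classical
  have hq0 : NeZero q := ⟨by omega⟩
  let K := Fin (m + 2)
  let t : K → K := fun s => s + 1
  have ht : ∀ s, t s ≠ s := by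
    intro s h
    have h1 : (1 : Fin (m + 2)) = 0 := by
      have h2 : s + 1 = s + 0 := by rw [add_zero]; exact h
      exact add_left_cancel h2
    simp at h1
  let c := chainCol m L
  have hc0 : c 0 = none := by simp [c, chainCol]
  have hcL : c L = none := by simp [c, chainCol]
  have hc : ∀ i < L, c i ≠ c (i + 1) := chainCol_succ m L hL
  have : Fintype (Vx K q L) := Fintype.ofEquiv _ (vxEquiv K q L).symm
  have hcard : Fintype.card (Vx K q L) = n := by
    rw [Fintype.card_congr (vxEquiv K q L), hn]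
    simp only [Fintype.card_sum, Fintype.card_prod, Fintype.card_unit, Fintype.card_fin,
      ZMod.card, K]
    ring
  let e : Fin n ≃ Vx K q L := (Fintype.equivFinOfCardEq hcard).symm
  let H : SimpleGraph (Fin n) := (G t c).comap e
  have hne : Nonempty (Fin n) := ⟨e.symm .inf⟩
  refine ⟨H, ?_, ?_⟩
  · apply critical_of H (m + 3)
    · intro hcol
      have h1 : Fintype.card (Option K) = m + 3 := by simp [K]
      have C : H.Coloring (Option K) := (h1 ▸ hcol : H.Colorable (Fintype.card (Option K))).toColoring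
        (by simp)
      apply not_col hq hq1 (by omega) t c hc0 hcL
      refine ⟨SimpleGraph.Coloring.mk (fun u => C (e.symm u)) ?_⟩
      intro u v huv
      apply C.valid
      simpa [H] using huv
    · intro x
      obtain ⟨f, hf⟩ := exists_col hq hq1 (by omega) t ht c hc0 hcL hc (e x)
      have h1 : Fintype.card (Option K) = m + 3 := by simp [K]
      rw [← h1]
      apply SimpleGraph.Coloring.colorable
      refine SimpleGraph.Coloring.mk (fun u => f (e u.1)) ?_
      intro u v huv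
      have hu : e u.1 ≠ e x := fun h => u.2 (e.injective h)
      have hv : e v.1 ≠ e x := fun h => v.2 (e.injective h)
      have h2 : (G t c).Adj (e u.1) (e v.1) := huv
      rw [G, SimpleGraph.fromRel_adj] at h2
      rcases h2.2 with h3 | h3
      · exact hf _ _ h3 hu hv
      · exact (hf _ _ h3 hv hu).symm
  · -- counting edges through darts
    have hadj : ∀ (s r : K) (i j i' j' : ZMod q), s ≠ r →
        H.Adj (e.symm (.a s i j)) (e.symm (.a r i' j')) := by
      intro s r i j i' j' hsr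
      show (G t c).Adj (e (e.symm (.a s i j))) (e (e.symm (.a r i' j')))
      rw [Equiv.apply_symm_apply, Equiv.apply_symm_apply]
      exact adj_of_E (E.core _ _ s r rfl rfl hsr) (by simp [hsr])
    let ι := {p : K × K // p.1 ≠ p.2} × (ZMod q × ZMod q) × (ZMod q × ZMod q)
    let g : ι → H.Dart := fun p => ⟨(e.symm (.a p.1.1.1 p.2.1.1 p.2.1.2),
      e.symm (.a p.1.1.2 p.2.2.1 p.2.2.2)), hadj _ _ _ _ _ _ p.1.2⟩
    have hg : Function.Injective g := by
      rintro ⟨⟨⟨s, r⟩, h⟩, ⟨i, j⟩, ⟨i', j'⟩⟩ ⟨⟨⟨s2, r2⟩, h2⟩, ⟨i2, j2⟩, ⟨i2', j2'⟩⟩ heq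
      have h3 := congrArg (fun d : H.Dart => d.toProd) heq
      simp only [g, Prod.mk.injEq, EmbeddingLike.apply_eq_iff_eq, Vx.a.injEq] at h3
      obtain ⟨⟨h4, h5, h6⟩, h7, h8, h9⟩ := h3
      subst h4 h5 h6 h7 h8 h9
      rfl
    have hcard1 : Fintype.card ι ≤ Fintype.card H.Dart := Fintype.card_le_of_injective g hg
    rw [SimpleGraph.dart_card_eq_twice_card_edges] at hcard1
    have hι : Fintype.card ι = (m + 2) * (m + 1) * q ^ 4 := by
      have h1 : Fintype.card {p : K × K // p.1 ≠ p.2} = (m + 2) * (m + 1) := by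
        have h2 := Finset.offDiag_card (Finset.univ : Finset K)
        rw [Fintype.card_subtype]
        have h3 : (Finset.univ.filter fun p : K × K => p.1 ≠ p.2) =
            (Finset.univ : Finset K).offDiag := by
          ext p; simp
        rw [h3, h2]
        simp only [Finset.card_univ, Fintype.card_fin, K]
        have : (m + 2) * (m + 2) = (m + 2) * (m + 1) + (m + 2) := by ring
        omega
      simp only [ι, Fintype.card_prod, ZMod.card, h1]
      ring
    rw [hι] at hcard1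
    rw [Set.ncard_eq_toFinset_card']
    exact hcard1

theorem le_maxEdges {k n : ℕ} {G : SimpleGraph (Fin n)} (hG : IsCritical k G) :
    G.edgeSet.ncard ≤ maxEdges k n := by
  classical
  apply le_csSup
  · refine ⟨(Set.univ : Set (Sym2 (Fin n))).ncard, ?_⟩
    rintro e ⟨G', _, rfl⟩
    exact Set.ncard_le_ncard (Set.subset_univ _) Set.finite_univ
  · exact ⟨G, hG, rfl⟩

/-- The lower bound. -/
theorem lower_bound (k : ℕ) (hk : 4 ≤ k) (n : ℕ) (hn : 25 * (k - 2) + 3 ≤ n) :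
    (∃ G : SimpleGraph (Fin n), IsCritical k G) ∧
      1 / 2 * (1 - 1 / ((k : ℝ) - 2)) * (n : ℝ) ^ 2 - 45 * ((k : ℝ) - 2) ^ 2 * (n : ℝ) ^ (3 / 2 : ℝ)
        ≤ (maxEdges k n : ℝ) := by
  obtain ⟨m, rfl⟩ : ∃ m, k = m + 4 := ⟨k - 4, by omega⟩
  rw [show m + 4 - 2 = m + 2 by omega] at hn
  -- choose the size
  have hex : ∃ j : ℕ, n < (m + 2) * (2 * j + 5) ^ 2 + 3 := by
    refine ⟨n, ?_⟩
    nlinarith [Nat.zero_le m, Nat.zero_le n, Nat.zero_le (m * n), Nat.zero_le (m * n * n)]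
  classical
  obtain ⟨j, hj1, hj2⟩ : ∃ j : ℕ, (m + 2) * (2 * j + 5) ^ 2 + 3 ≤ n ∧
      n < (m + 2) * (2 * j + 7) ^ 2 + 3 := by
    have h1 := Nat.find_spec hex
    have h2 : 0 < Nat.find hex := by
      rw [Nat.pos_iff_ne_zero]
      intro h3
      rw [h3] at h1
      omega
    have h3 := Nat.find_min hex (m := Nat.find hex - 1) (by omega)
    refine ⟨Nat.find hex - 1, by omega, ?_⟩
    rw [show 2 * (Nat.find hex - 1) + 7 = 2 * Nat.find hex + 5 by omega]
    exact h1
  obtain ⟨L, hL⟩ : ∃ L, n = 1 + L + 4 * (m + 2) + (m + 2) * ((2 * j + 3) * (2 * j + 3)) +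
      4 * ((m + 2) * (2 * j + 3)) := by
    refine ⟨n - (1 + 4 * (m + 2) + (m + 2) * ((2 * j + 3) * (2 * j + 3)) +
      4 * ((m + 2) * (2 * j + 3))), ?_⟩
    have h1 : (m + 2) * (2 * j + 5) ^ 2 = 4 * (m + 2) + (m + 2) * ((2 * j + 3) * (2 * j + 3)) +
      4 * ((m + 2) * (2 * j + 3)) := by ring
    omega
  have hL2 : 2 ≤ L := by
    have h1 : (m + 2) * (2 * j + 5) ^ 2 = 4 * (m + 2) + (m + 2) * ((2 * j + 3) * (2 * j + 3)) +
      4 * ((m + 2) * (2 * j + 3)) := by ring
    omega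
  obtain ⟨G, hG, hGe⟩ := exists_critical m (2 * j + 3) L ⟨j + 1, by ring⟩ (by omega) hL2 n hL
  refine ⟨⟨G, hG⟩, ?_⟩
  have h1 : (G.edgeSet.ncard : ℝ) ≤ maxEdges (m + 4) n := by exact_mod_cast le_maxEdges hG
  refine le_trans ?_ h1
  have h2 : ((m : ℝ) + 2) * ((m : ℝ) + 1) * (2 * j + 3 : ℝ) ^ 4 ≤ 2 * (G.edgeSet.ncard : ℝ) := by
    exact_mod_cast hGe
  have hn1 : (n : ℝ) ≤ ((m : ℝ) + 2) * ((2 * j + 3 : ℝ) ^ 2 + 8 * (2 * j + 3 : ℝ) + 17) := by
    have h3 : n + 1 ≤ (m + 2) * (2 * j + 7) ^ 2 + 3 := hj2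
    have h4 : ((n : ℝ) + 1) ≤ ((m : ℝ) + 2) * (2 * j + 7 : ℝ) ^ 2 + 3 := by exact_mod_cast h3
    have h5 : (0 : ℝ) ≤ (m : ℝ) := Nat.cast_nonneg _
    nlinarith
  have hn2 : ((2 * j + 3 : ℝ)) ^ 2 ≤ (n : ℝ) := by
    have h3 : (2 * j + 3) ^ 2 ≤ n := by
      have h4 : (2 * j + 3) ^ 2 ≤ (m + 2) * (2 * j + 5) ^ 2 := by nlinarith
      omega
    exact_mod_cast h3
  set Q : ℝ := 2 * (j : ℝ) + 3 with hQ
  set M : ℝ := (m : ℝ) + 2 with hM
  have hQ3 : 3 ≤ Q := by
    have : (0 : ℝ) ≤ (j : ℝ) := Nat.cast_nonneg _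
    rw [hQ]; linarith
  have hM2 : 2 ≤ M := by
    have : (0 : ℝ) ≤ (m : ℝ) := Nat.cast_nonneg _
    rw [hM]; linarith
  have hpow : Q ^ 3 ≤ (n : ℝ) ^ (3 / 2 : ℝ) := by
    have h3 : ((Q ^ 2 : ℝ)) ^ (3 / 2 : ℝ) ≤ (n : ℝ) ^ (3 / 2 : ℝ) :=
      Real.rpow_le_rpow (by positivity) hn2 (by norm_num)
    have h4 : ((Q ^ 2 : ℝ)) ^ (3 / 2 : ℝ) = Q ^ 3 := by
      rw [← Real.rpow_natCast Q 2, ← Real.rpow_natCast Q 3, ← Real.rpow_mul (by linarith)]
      norm_num
    rw [h4] at h3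
    exact h3
  have hk2 : (((m + 4 : ℕ) : ℝ) - 2) = M := by
    rw [hM]; push_cast; ring
  rw [hk2]
  have hn0 : (0 : ℝ) ≤ n := Nat.cast_nonneg _
  -- the main term
  have h5 : (n : ℝ) ^ 2 ≤ M ^ 2 * (Q ^ 2 + 8 * Q + 17) ^ 2 := by
    rw [← mul_pow]
    exact pow_le_pow_left₀ hn0 hn1 2
  have h6 : (Q ^ 2 + 8 * Q + 17) ^ 2 ≤ Q ^ 4 + 90 * Q ^ 3 := by
    have h7 : 3 * Q ^ 2 ≤ Q ^ 3 := by nlinarith [sq_nonneg Q]
    have h8 : 9 * Q ≤ Q ^ 3 := by nlinarith [sq_nonneg Q]
    have h9 : 27 ≤ Q ^ 3 := by nlinarith [sq_nonneg Q]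
    nlinarith
  have h10 : 1 / 2 * (1 - 1 / M) * (n : ℝ) ^ 2 ≤ 1 / 2 * (M * (M - 1)) * (Q ^ 4 + 90 * Q ^ 3) := by
    have h11 : (0 : ℝ) ≤ 1 - 1 / M := by
      rw [sub_nonneg, div_le_one (by linarith)]
      linarith
    calc 1 / 2 * (1 - 1 / M) * (n : ℝ) ^ 2
        ≤ 1 / 2 * (1 - 1 / M) * (M ^ 2 * (Q ^ 4 + 90 * Q ^ 3)) := by
          apply mul_le_mul_of_nonneg_left _ (by positivity)
          exact h5.trans (mul_le_mul_of_nonneg_left h6 (by positivity))
      _ = 1 / 2 * (M * (M - 1)) * (Q ^ 4 + 90 * Q ^ 3) := by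
          field_simp
  have h12 : 45 * (M * (M - 1)) * Q ^ 3 ≤ 45 * M ^ 2 * (n : ℝ) ^ (3 / 2 : ℝ) := by
    have h13 : 45 * (M * (M - 1)) ≤ 45 * M ^ 2 := by nlinarith
    exact mul_le_mul h13 hpow (by positivity) (by positivity)
  have h14 : M * (M - 1) * Q ^ 4 ≤ 2 * (G.edgeSet.ncard : ℝ) := by
    have h15 : M - 1 = (m : ℝ) + 1 := by rw [hM]; ring
    rw [h15]
    exact h2
  nlinarith

end Pool.Agent.NH74.F053
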