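import Mathlib

/-!
Upper bound for the number of edges of vertex-critical graphs: the clique part of the argument.
-/

namespace Pool.Agent.NH74.F053

open Finset

open scoped Classical in
/-- The number of neighbours of `v` in `U`. -/
noncomputable def dg {V : Type} (H : SimpleGraph V) (U : Finset V) (v : V) : ℕ :=
  (U.filter (fun y => H.Adj v y)).card

/-- The data of the clique argument: proper colourings `φ z` of `G - z`, and partners `p y` of the
vertices `y` in `Ag`, all in `B`. -/
structure Setup {V : Type} (G H : SimpleGraph V) (r : ℕ) (φ : V → V → Fin r)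
    (p : V → V) (Ag B : Finset V) : Prop where
  col : ∀ z u v, u ≠ z → v ≠ z → G.Adj u v → φ z u ≠ φ z v
  le : H ≤ G
  free : G.CliqueFree (r + 1)
  adj : ∀ y ∈ Ag, G.Adj y (p y)
  memB : ∀ y ∈ Ag, p y ∈ B
  notB : ∀ q ∈ B, ∀ Q : Finset V, H.IsNClique r Q → q ∉ Q
  partner : ∀ y ∈ Ag, ∀ Q : Finset V, H.IsNClique r Q → y ∈ Q → ∀ v ∈ Q, v ≠ y →
    φ y (p y) ≠ φ y v
  disj : Disjoint Ag B

section clique

variable {V : Type} [Fintype V] [DecidableEq V] {G H : SimpleGraph V} {r : ℕ}
  {φ : V → V → Fin r} {p : V → V} {Ag B : Finset V}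

set_option linter.unusedSectionVars false

open scoped Classical in
/-- The number of neighbours of `y` in `Q`. -/
noncomputable def aa (H : SimpleGraph V) (Q : Finset V) (y : V) : ℕ :=
  (Q.filter (fun v => H.Adj v y)).card

theorem sum_dg (H : SimpleGraph V) (Q U : Finset V) :
    ∑ v ∈ Q, dg H U v = ∑ y ∈ U, aa H Q y := by
  classical
  unfold dg aa
  exact Finset.sum_card_bipartiteAbove_eq_sum_card_bipartiteBelow (fun v y => H.Adj v y)

theorem aa_le (hS : Setup G H r φ p Ag B) {Q : Finset V} (hQ : H.IsNClique r Q) (y : V) :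
    aa H Q y + 1 ≤ r := by
  classical
  by_contra hlt
  push Not at hlt
  have h1 : (Q.filter (fun v => H.Adj v y)).card = Q.card := by
    apply le_antisymm (Finset.card_filter_le _ _)
    rw [hQ.card_eq]
    unfold aa at hlt
    omega
  have h2 : ∀ v ∈ Q, H.Adj v y := Finset.card_filter_eq_iff.mp h1
  have h3 : H.IsNClique (r + 1) (insert y Q) := hQ.insert (fun b hb => (h2 b hb).symm)
  exact (hS.free.anti hS.le) _ h3

theorem exists_miss {Q : Finset V} (hQ : H.IsNClique r Q) {y : V} (hy : aa H Q y + 1 = r) :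
    ∃ v ∈ Q, ¬ H.Adj v y ∧ ∀ v' ∈ Q, v' ≠ v → H.Adj v' y := by
  classical
  have h1 : (Q.filter (fun v => ¬ H.Adj v y)).card = 1 := by
    have h2 := Finset.card_filter_add_card_filter_not (s := Q) (fun v => H.Adj v y)
    rw [hQ.card_eq] at h2
    unfold aa at hy
    omega
  obtain ⟨v, hv⟩ := Finset.card_eq_one.mp h1
  have h3 : v ∈ Q.filter (fun v => ¬ H.Adj v y) := by rw [hv]; exact Finset.mem_singleton_self v
  rw [Finset.mem_filter] at h3
  refine ⟨v, h3.1, h3.2, fun v' hv' hne => ?_⟩
  by_contra hno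
  have h4 : v' ∈ Q.filter (fun v => ¬ H.Adj v y) := by
    rw [Finset.mem_filter]; exact ⟨hv', hno⟩
  rw [hv, Finset.mem_singleton] at h4
  exact hne h4

theorem surj_on_clique (hS : Setup G H r φ p Ag B) {Q : Finset V} (hQ : H.IsNClique r Q) {z : V}
    (hz : z ∉ Q) (c : Fin r) : ∃ v ∈ Q, φ z v = c := by
  classical
  have h1 : (Q.image (φ z)).card = r := by
    rw [Finset.card_image_of_injOn, hQ.card_eq]
    intro u hu v hv huv
    by_contra hne
    have h2 : H.Adj u v := hQ.isClique hu hv hne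
    exact hS.col z u v (fun h => hz (h ▸ hu)) (fun h => hz (h ▸ hv)) (hS.le h2) huv
  have h2 : Q.image (φ z) = Finset.univ := by
    apply Finset.eq_univ_of_card
    rw [h1, Fintype.card_fin]
  have h3 : c ∈ Q.image (φ z) := by rw [h2]; exact Finset.mem_univ c
  rw [Finset.mem_image] at h3
  obtain ⟨v, hv, hvc⟩ := h3
  exact ⟨v, hv, hvc⟩

/-- The swapped clique. -/
theorem swap_clique {Q : Finset V} (hQ : H.IsNClique r Q) {y v : V} (hv : v ∈ Q)
    (hadj : ∀ v' ∈ Q, v' ≠ v → H.Adj v' y) : H.IsNClique r (insert y (Q.erase v)) := by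
  have h1 : H.IsNClique (r - 1) (Q.erase v) := by
    refine ⟨hQ.isClique.subset (by simp), ?_⟩
    rw [Finset.card_erase_of_mem hv, hQ.card_eq]
  have h2 := h1.insert (a := y) (fun b hb => by
    rw [Finset.mem_erase] at hb
    exact (hadj b hb.2 hb.1).symm)
  have h3 : r - 1 + 1 = r := by
    have : 0 < Q.card := Finset.card_pos.mpr ⟨v, hv⟩
    rw [hQ.card_eq] at this
    omega
  rwa [h3] at h2

theorem col_class (hS : Setup G H r φ p Ag B) {Q : Finset V} (hQ : H.IsNClique r Q) {y v z : V}
    (hadj : ∀ v' ∈ Q, v' ≠ v → H.Adj v' y) (hz : z ∉ Q) (hzy : z ≠ y) :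
    φ z y = φ z v := by
  obtain ⟨v', hv', hc⟩ := surj_on_clique hS hQ hz (φ z y)
  by_cases h : v' = v
  · rw [← hc, h]
  · exact absurd hc (hS.col z v' y (fun h => hz (h ▸ hv')) hzy.symm (hS.le (hadj v' hv' h)))

theorem partner_col (hS : Setup G H r φ p Ag B) {Q : Finset V} (hQ : H.IsNClique r Q) {y v : V}
    (hy : y ∈ Ag) (hv : v ∈ Q) (hadj : ∀ v' ∈ Q, v' ≠ v → H.Adj v' y) (hyQ : y ∉ Q) :
    φ y (p y) = φ y v := by
  obtain ⟨v', hv', hc⟩ := surj_on_clique hS hQ hyQ (φ y (p y))
  by_cases h : v' = v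
  · rw [← hc, h]
  · exfalso
    refine hS.partner y hy _ (swap_clique hQ hv hadj) (Finset.mem_insert_self _ _) v' ?_ ?_ hc.symm
    · exact Finset.mem_insert_of_mem (Finset.mem_erase.mpr ⟨h, hv'⟩)
    · exact fun h => hyQ (h ▸ hv')

/-- Partners have few neighbours in the clique. -/
theorem aa_partner (hS : Setup G H r φ p Ag B) {Q : Finset V} (hQ : H.IsNClique r Q)
    (hcard : 2 * r + 2 ≤ Fintype.card V) (Y : Finset V) (q : V)
    (hY : ∀ y ∈ Y, y ∈ Ag ∧ y ∉ Q ∧ aa H Q y + 1 = r ∧ p y = q) :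
    aa H Q q + Y.card + 1 ≤ r ∨ Y = ∅ := by
  classical
  rcases Y.eq_empty_or_nonempty with hYe | hYne
  · right; exact hYe
  left
  have hm : ∀ y ∈ Y, ∃ v ∈ Q, ¬ H.Adj v y ∧ ∀ v' ∈ Q, v' ≠ v → H.Adj v' y :=
    fun y hy => exists_miss hQ (hY y hy).2.2.1
  choose! m hmQ hmn hma using hm
  -- partners are not adjacent to other members of the class
  have hpn : ∀ y ∈ Y, ∀ u, u ≠ y → (∀ v' ∈ Q, v' ≠ m y → H.Adj v' u) → ¬ G.Adj q u := by
    intro y hy u huy hu hadj
    obtain ⟨hyA, hyQ, _, hyq⟩ := hY y hy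
    have h1 := partner_col hS hQ hyA (hmQ y hy) (hma y hy) hyQ
    have h2 : φ y u = φ y (m y) := col_class hS hQ hu hyQ huy.symm
    have h3 : q ≠ y := by
      rw [← hyq]; exact (hS.adj y hyA).ne'
    exact hS.col y q u h3 huy hadj (by rw [← hyq, h1, h2])
  have hinj : Set.InjOn m Y := by
    intro y hy y' hy' hmm
    by_contra hne
    refine hpn y hy y' (fun h => hne h.symm) (by rw [hmm]; exact hma y' hy') ?_
    have h1 := hS.adj y' (hY y' hy').1
    rw [(hY y' hy').2.2.2] at h1
    exact h1.symm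
  have hcardY : (Y.image m).card = Y.card := Finset.card_image_of_injOn hinj
  have hYQ : Y.image m ⊆ Q := by
    intro v hv
    rw [Finset.mem_image] at hv
    obtain ⟨y, hy, rfl⟩ := hv
    exact hmQ y hy
  have hYr : Y.card ≤ r := by
    rw [← hcardY, ← hQ.card_eq]
    exact Finset.card_le_card hYQ
  obtain ⟨z, hz⟩ : ∃ z, z ∉ insert q (Q ∪ Y) := by
    by_contra hno
    push Not at hno
    have h1 : (insert q (Q ∪ Y)) = Finset.univ := by
      ext z; simp only [Finset.mem_univ, iff_true]; exact hno z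
    have h2 : (insert q (Q ∪ Y)).card ≤ r + Y.card + 1 := by
      refine (Finset.card_insert_le _ _).trans ?_
      have := Finset.card_union_le Q Y
      rw [hQ.card_eq] at this
      omega
    rw [h1, Finset.card_univ] at h2
    omega
  simp only [Finset.mem_insert, Finset.mem_union, not_or] at hz
  obtain ⟨hzq, hzQ, hzY⟩ := hz
  obtain ⟨v, hv, hvc⟩ := surj_on_clique hS hQ hzQ (φ z q)
  have hvY : v ∉ Y.image m := by
    intro h
    rw [Finset.mem_image] at h
    obtain ⟨y, hy, rfl⟩ := h
    have h1 : φ z y = φ z (m y) := col_class hS hQ (hma y hy) hzQ (fun h => hzY (h ▸ hy))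
    have h2 := hS.adj y (hY y hy).1
    rw [(hY y hy).2.2.2] at h2
    exact hS.col z y q (fun h => hzY (h ▸ hy)) (Ne.symm hzq) h2 (by rw [h1, hvc])
  have hsub : Q.filter (fun v => H.Adj v q) ⊆ Q \ (insert v (Y.image m)) := by
    intro u hu
    rw [Finset.mem_filter] at hu
    rw [Finset.mem_sdiff, Finset.mem_insert, not_or]
    refine ⟨hu.1, ?_, ?_⟩
    · rintro rfl
      exact hS.col z u q (fun h => hzQ (h ▸ hv)) (Ne.symm hzq) (hS.le hu.2) hvc
    · intro h
      rw [Finset.mem_image] at h
      obtain ⟨y, hy, rfl⟩ := h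
      refine hpn y hy (m y) (fun h => (hY y hy).2.1 (h ▸ hmQ y hy)) ?_ (hS.le hu.2).symm
      intro v' hv' hne
      exact hQ.isClique hv' (hmQ y hy) hne
  have h1 := Finset.card_le_card hsub
  rw [Finset.card_sdiff_of_subset (Finset.insert_subset hv hYQ),
    Finset.card_insert_of_notMem hvY, hcardY, hQ.card_eq] at h1
  have h2 : (insert v (Y.image m)).card ≤ r := by
    rw [← hQ.card_eq]
    exact Finset.card_le_card (Finset.insert_subset hv hYQ)
  rw [Finset.card_insert_of_notMem hvY, hcardY] at h2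
  unfold aa
  omega

/-- The degree sum of a clique. -/
theorem clique_sum (hS : Setup G H r φ p Ag B) (hr : 2 ≤ r) {Q : Finset V} (hQ : H.IsNClique r Q)
    (hcard : 2 * r + 2 ≤ Fintype.card V) {A' : Finset V} (hA' : A' ⊆ Ag) (hQA : Q ⊆ A' ∪ B) :
    2 * ∑ v ∈ Q, dg H (A' ∪ B) v ≤ (2 * r - 3) * (A' ∪ B).card + r := by
  classical
  have hdisj : Disjoint A' B := hS.disj.mono_left hA'
  rw [sum_dg, Finset.sum_union hdisj, Finset.card_union_of_disjoint hdisj]
  -- vertices of `B` see at most `r - 2` vertices of `Q`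
  have hB2 : ∀ q ∈ B, aa H Q q + 2 ≤ r := by
    intro q hq
    have h1 := aa_le hS hQ q
    by_contra hlt
    have h2 : aa H Q q + 1 = r := by omega
    obtain ⟨v, hv, _, hadj⟩ := exists_miss hQ h2
    exact hS.notB q hq _ (swap_clique hQ hv hadj) (Finset.mem_insert_self _ _)
  have hQA' : Q ⊆ A' := by
    intro v hv
    rcases Finset.mem_union.mp (hQA hv) with h | h
    · exact h
    · exact absurd hv (hS.notB v h Q hQ)
  set W := A'.filter (fun y => aa H Q y + 1 = r) with hW
  have hQW : Q ⊆ W := by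
    intro v hv
    rw [hW, Finset.mem_filter]
    refine ⟨hQA' hv, ?_⟩
    have h1 : Q.filter (fun u => H.Adj u v) = Q.erase v := by
      ext u
      rw [Finset.mem_filter, Finset.mem_erase]
      constructor
      · rintro ⟨hu, huv⟩; exact ⟨huv.ne, hu⟩
      · rintro ⟨hne, hu⟩; exact ⟨hu, hQ.isClique hu hv hne⟩
    unfold aa
    rw [h1, Finset.card_erase_of_mem hv, hQ.card_eq]
    omega
  -- the sum over `A'`
  have hA1 : ∑ y ∈ A', aa H Q y ≤ (r - 2) * A'.card + W.card := by
    have h1 : ∀ y ∈ A', aa H Q y ≤ (r - 2) + (if aa H Q y + 1 = r then 1 else 0) := by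
      intro y _
      have h2 := aa_le hS hQ y
      split_ifs with h3
      · omega
      · omega
    calc ∑ y ∈ A', aa H Q y ≤ ∑ y ∈ A', ((r - 2) + (if aa H Q y + 1 = r then 1 else 0)) :=
          Finset.sum_le_sum h1
      _ = (r - 2) * A'.card + W.card := by
          rw [Finset.sum_add_distrib, Finset.sum_const, smul_eq_mul, mul_comm, ← Finset.sum_filter,
            Finset.sum_const, smul_eq_mul, mul_one]
  have hWA : W.card ≤ A'.card := Finset.card_filter_le _ _
  -- first bound for `B`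
  have hB1 : ∑ q ∈ B, aa H Q q ≤ (r - 2) * B.card := by
    calc ∑ q ∈ B, aa H Q q ≤ ∑ q ∈ B, (r - 2) :=
          Finset.sum_le_sum (fun q hq => by have := hB2 q hq; omega)
      _ = (r - 2) * B.card := by rw [Finset.sum_const, smul_eq_mul, mul_comm]
  -- second bound for `B`
  have hBs : ∑ q ∈ B, aa H Q q + (W \ Q).card ≤ (r - 1) * B.card := by
    have h1 : (W \ Q).card = ∑ q ∈ B, ((W \ Q).filter (fun y => p y = q)).card := by
      apply Finset.card_eq_sum_card_fiberwise
      intro y hy
      have hy' : y ∈ W \ Q := hy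
      rw [Finset.mem_sdiff, hW, Finset.mem_filter] at hy'
      exact hS.memB y (hA' hy'.1.1)
    rw [h1, ← Finset.sum_add_distrib]
    calc ∑ q ∈ B, (aa H Q q + ((W \ Q).filter (fun y => p y = q)).card) ≤ ∑ q ∈ B, (r - 1) := by
          apply Finset.sum_le_sum
          intro q hq
          have hYq : ∀ y ∈ (W \ Q).filter (fun y => p y = q),
              y ∈ Ag ∧ y ∉ Q ∧ aa H Q y + 1 = r ∧ p y = q := by
            intro y hy
            rw [Finset.mem_filter, Finset.mem_sdiff, hW, Finset.mem_filter] at hy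
            exact ⟨hA' hy.1.1.1, hy.1.2, hy.1.1.2, hy.2⟩
          rcases aa_partner hS hQ hcard ((W \ Q).filter (fun y => p y = q)) q hYq with h2 | h2
          · omega
          · rw [h2, Finset.card_empty]
            have := hB2 q hq
            omega
      _ = (r - 1) * B.card := by rw [Finset.sum_const, smul_eq_mul, mul_comm]
  have hWQ : (W \ Q).card = W.card - r := by
    rw [Finset.card_sdiff_of_subset hQW, hQ.card_eq]
  have hrW : r ≤ W.card := by
    rw [← hQ.card_eq]; exact Finset.card_le_card hQW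
  obtain ⟨l, rfl⟩ : ∃ l, r = l + 2 := ⟨r - 2, by omega⟩
  rw [show 2 * (l + 2) - 3 = 2 * l + 1 by omega]
  rw [show l + 2 - 2 = l by omega] at hA1 hB1
  rw [show l + 2 - 1 = l + 1 by omega] at hBs
  rw [hWQ] at hBs
  have h5 : W.card - (l + 2) + (l + 2) = W.card := by omega
  nlinarith

open scoped Classical in
/-- Twice the number of edges inside `U`. -/
noncomputable def ee (H : SimpleGraph V) (U : Finset V) : ℕ := ∑ u ∈ U, dg H U u

/-- Turan's theorem for finsets. -/
theorem turan_ee (H : SimpleGraph V) {r : ℕ} (hr : 2 ≤ r) (U : Finset V)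
    (hfree : ∀ Q ⊆ U, ¬ H.IsNClique r Q) :
    (r - 1) * ee H U ≤ (r - 2) * U.card ^ 2 := by
  classical
  obtain ⟨l, rfl⟩ : ∃ l, r = l + 1 := ⟨r - 1, by omega⟩
  have hl : 0 < l := by omega
  set H' : SimpleGraph U := H.induce (U : Set V) with hH'
  have hf : H'.CliqueFree (l + 1) := by
    intro Q hQ
    apply hfree (Q.map (Function.Embedding.subtype _))
    · intro v hv
      rw [Finset.mem_map] at hv
      obtain ⟨u, _, rfl⟩ := hv
      exact u.2
    · constructor
      · intro u hu v hv huv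
        rw [Finset.mem_coe, Finset.mem_map] at hu hv
        obtain ⟨u', hu', rfl⟩ := hu
        obtain ⟨v', hv', rfl⟩ := hv
        exact hQ.isClique hu' hv' (fun h => huv (by rw [h]))
      · rw [Finset.card_map, hQ.card_eq]
  obtain ⟨T, _, hmax⟩ := SimpleGraph.exists_isTuranMaximal (V := U) hl
  have h1 : H'.edgeFinset.card ≤ T.edgeFinset.card := hmax.2 hf
  have h2 : T.edgeFinset.card = (SimpleGraph.turanGraph (Fintype.card U) l).edgeFinset.card :=
    ((SimpleGraph.isTuranMaximal_iff_nonempty_iso_turanGraph hl).mp hmax).some.card_edgeFinset_eq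
  have h3 := SimpleGraph.mul_card_edgeFinset_turanGraph_le (n := Fintype.card U) (r := l)
  have h4 : ee H U = 2 * H'.edgeFinset.card := by
    rw [← SimpleGraph.sum_degrees_eq_twice_card_edges, ee, ← Finset.sum_coe_sort]
    apply Finset.sum_congr rfl
    intro u _
    unfold dg
    rw [← SimpleGraph.card_neighborFinset_eq_degree]
    rw [← Finset.card_map (Function.Embedding.subtype (fun v => v ∈ U))
      (s := H'.neighborFinset u)]
    congr 1
    ext v
    simp only [Finset.mem_filter, Finset.mem_map, SimpleGraph.mem_neighborFinset,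
      Function.Embedding.subtype_apply]
    constructor
    · rintro ⟨hv, hadj⟩
      exact ⟨⟨v, hv⟩, hadj, rfl⟩
    · rintro ⟨⟨w, hw⟩, hadj, rfl⟩
      exact ⟨hw, hadj⟩
  rw [h4]
  rw [Fintype.card_coe] at h3 h2
  rw [← h2] at h3
  rw [show l + 1 - 1 = l by omega, show l + 1 - 2 = l - 1 by omega]
  calc l * (2 * H'.edgeFinset.card) = 2 * l * H'.edgeFinset.card := by ring
    _ ≤ 2 * l * T.edgeFinset.card := Nat.mul_le_mul_left _ h1
    _ ≤ (l - 1) * U.card ^ 2 := h3

/-- Removing one vertex. -/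
theorem ee_erase (H : SimpleGraph V) {U : Finset V} {v : V} (hv : v ∈ U) :
    ee H U = ee H (U.erase v) + 2 * dg H U v := by
  classical
  have h1 : ∀ u, u ≠ v → dg H U u = dg H (U.erase v) u + (if H.Adj u v then 1 else 0) := by
    intro u huv
    unfold dg
    have h2 : U.filter (fun y => H.Adj u y) =
        (U.erase v).filter (fun y => H.Adj u y) ∪ ({v} : Finset V).filter (fun y => H.Adj u y) := by
      rw [← Finset.filter_union]
      congr 1
      ext y
      simp only [Finset.mem_union, Finset.mem_erase, Finset.mem_singleton]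
      constructor
      · intro hy
        by_cases h : y = v
        · right; exact h
        · left; exact ⟨h, hy⟩
      · rintro (h | h)
        · exact h.2
        · rw [h]; exact hv
    rw [h2, Finset.card_union_of_disjoint]
    · congr 1
      rw [Finset.filter_singleton]
      split_ifs <;> simp
    · rw [Finset.disjoint_left]
      intro y hy hy'
      rw [Finset.mem_filter, Finset.mem_erase] at hy
      rw [Finset.mem_filter, Finset.mem_singleton] at hy'
      exact hy.1.1 hy'.1
  have h3 : ∑ u ∈ U.erase v, (if H.Adj u v then 1 else 0) = dg H U v := by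
    rw [← Finset.sum_filter, Finset.sum_const, smul_eq_mul, mul_one]
    unfold dg
    congr 1
    ext y
    simp only [Finset.mem_filter, Finset.mem_erase]
    constructor
    · rintro ⟨⟨_, hy⟩, hadj⟩; exact ⟨hy, hadj.symm⟩
    · rintro ⟨hy, hadj⟩; exact ⟨⟨hadj.ne', hy⟩, hadj.symm⟩
  unfold ee
  rw [← Finset.add_sum_erase U _ hv]
  rw [Finset.sum_congr rfl (fun u hu => h1 u (Finset.ne_of_mem_erase hu)), Finset.sum_add_distrib,
    h3]
  ring

/-- The edges of `H` inside `A' ∪ B`. -/
theorem ee_bound (hS : Setup G H r φ p Ag B) (hr : 3 ≤ r)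
    (hcard : 2 * r + 2 ≤ Fintype.card V) :
    ∀ (n : ℕ) (A' : Finset V), A'.card = n → A' ⊆ Ag →
      (r - 1) * ee H (A' ∪ B) ≤ (r - 2) * (A' ∪ B).card ^ 2 + 2 * (r - 1) * (A' ∪ B).card := by
  classical
  intro n
  induction n with
  | zero =>
    intro A' hA' _
    rw [Finset.card_eq_zero] at hA'
    subst hA'
    refine (turan_ee H (by omega) _ ?_).trans (Nat.le_add_right _ _)
    intro Q hQ hQc
    rw [Finset.empty_union] at hQ
    have hne : Q.Nonempty := by
      rw [← Finset.card_pos, hQc.card_eq]; omega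
    obtain ⟨v, hv⟩ := hne
    exact hS.notB v (hQ hv) Q hQc hv
  | succ n ih =>
    intro A' hA' hsub
    by_cases hfree : ∀ Q ⊆ A' ∪ B, ¬ H.IsNClique r Q
    · exact (turan_ee H (by omega) _ hfree).trans (Nat.le_add_right _ _)
    · push Not at hfree
      obtain ⟨Q, hQ, hQc⟩ := hfree
      have hsum := clique_sum hS (by omega) hQc hcard hsub hQ
      -- some vertex of `Q` has small degree
      obtain ⟨v, hv, hvd⟩ : ∃ v ∈ Q, 2 * r * dg H (A' ∪ B) v ≤ (2 * r - 3) * (A' ∪ B).card + r := by
        by_contra hno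
        push Not at hno
        have h1 : ∑ v ∈ Q, ((2 * r - 3) * (A' ∪ B).card + r + 1) ≤
            ∑ v ∈ Q, 2 * r * dg H (A' ∪ B) v := Finset.sum_le_sum (fun v hv => hno v hv)
        rw [Finset.sum_const, smul_eq_mul, hQc.card_eq, ← Finset.mul_sum] at h1
        have h2 : r * (2 * ∑ v ∈ Q, dg H (A' ∪ B) v) ≤ r * ((2 * r - 3) * (A' ∪ B).card + r) :=
          Nat.mul_le_mul_left _ hsum
        have h3 : 0 < r := by omega
        nlinarith
      have hvA : v ∈ A' := by
        rcases Finset.mem_union.mp (hQ hv) with h | h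
        · exact h
        · exact absurd hv (hS.notB v h Q hQc)
      have hvB : v ∉ B := fun h => hS.notB v h Q hQc hv
      have herase : (A' ∪ B).erase v = A'.erase v ∪ B := by
        rw [Finset.erase_union_distrib, Finset.erase_eq_of_notMem hvB]
      have hvU : v ∈ A' ∪ B := hQ hv
      have hee := ee_erase H hvU
      rw [herase] at hee
      have hih := ih (A'.erase v) (by rw [Finset.card_erase_of_mem hvA, hA']; rfl)
        ((Finset.erase_subset _ _).trans hsub)
      have hcU : (A'.erase v ∪ B).card + 1 = (A' ∪ B).card := by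
        rw [← herase, Finset.card_erase_of_mem hvU]
        have : 0 < (A' ∪ B).card := Finset.card_pos.mpr ⟨v, hvU⟩
        omega
      rw [hee]
      set u := (A'.erase v ∪ B).card with hu
      set d := dg H (A' ∪ B) v with hd
      set e := ee H (A'.erase v ∪ B) with he
      rw [← hcU] at hvd ⊢
      obtain ⟨l, rfl⟩ : ∃ l, r = l + 3 := ⟨r - 3, by omega⟩
      rw [show 2 * (l + 3) - 3 = 2 * l + 3 by omega] at hvd
      rw [show l + 3 - 1 = l + 2 by omega, show l + 3 - 2 = l + 1 by omega] at hih ⊢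
      -- 2 r d ≤ (2 l + 3) (u + 1) + r
      have h1 : (l + 3) * ((l + 2) * (2 * d)) ≤ (l + 2) * ((2 * l + 3) * (u + 1) + (l + 3)) := by
        calc (l + 3) * ((l + 2) * (2 * d)) = (l + 2) * (2 * (l + 3) * d) := by ring
          _ ≤ _ := Nat.mul_le_mul_left _ hvd
      have h2 : (l + 2) * ((2 * l + 3) * (u + 1) + (l + 3)) ≤
          (l + 3) * ((l + 1) * (2 * u + 1) + 2 * (l + 2)) := by
        nlinarith
      have h3 : (l + 2) * (2 * d) ≤ (l + 1) * (2 * u + 1) + 2 * (l + 2) :=
        Nat.le_of_mul_le_mul_left (h1.trans h2) (by omega)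
      nlinarith

end clique

end Pool.Agent.NH74.F053
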