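import Mathlib
import Pool.Agent.NH74.F053.Upper

/-!
Upper bound for the number of edges of vertex-critical graphs: the regularity part.
-/

namespace Pool.Agent.NH74.F053

open Finset

section reg

set_option linter.unusedSectionVars false

variable {V : Type} [Fintype V] [DecidableEq V] {G : SimpleGraph V} [DecidableRel G.Adj] {r : ℕ}

/-- The vertices of `U` other than `z` with the colour `c`. -/
def cls (φ : V → V → Fin r) (z : V) (U : Finset V) (c : Fin r) : Finset V :=
  U.filter (fun u => u ≠ z ∧ φ z u = c)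

/-- The colour `c` is used on a fraction `η` of `U`. -/
def Big (φ : V → V → Fin r) (η : ℝ) (z : V) (U : Finset V) (c : Fin r) : Prop :=
  (U.card : ℝ) * η ≤ ((cls φ z U c).card : ℝ)

theorem big_disj {φ : V → V → Fin r} (hφ : ∀ z u v, u ≠ z → v ≠ z → G.Adj u v → φ z u ≠ φ z v)
    {η : ℝ} {z : V} {U W : Finset V} (hu : G.IsUniform η U W)
    (hd : 2 * η ≤ (G.edgeDensity U W : ℝ)) {c : Fin r} (h1 : Big φ η z U c) (h2 : Big φ η z W c) :
    False := by
  have hη : 0 < η := hu.pos
  have h3 : |((G.edgeDensity (cls φ z U c) (cls φ z W c) : ℚ) : ℝ) -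
      ((G.edgeDensity U W : ℚ) : ℝ)| < η := hu (Finset.filter_subset _ _ : cls φ z U c ⊆ U)
    (Finset.filter_subset _ _ : cls φ z W c ⊆ W) h1 h2
  have h4 : G.edgeDensity (cls φ z U c) (cls φ z W c) = 0 := by
    rw [SimpleGraph.edgeDensity_def]
    have h5 : G.interedges (cls φ z U c) (cls φ z W c) = ∅ := by
      rw [Finset.eq_empty_iff_forall_notMem]
      rintro ⟨a, b⟩ hab
      rw [SimpleGraph.mem_interedges_iff] at hab
      simp only [cls, Finset.mem_filter] at hab
      obtain ⟨⟨_, ha, hac⟩, ⟨_, hb, hbc⟩, hadj⟩ := hab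
      exact hφ z a b ha hb hadj (hac.trans hbc.symm)
    rw [h5]
    simp
  rw [h4] at h3
  rw [abs_lt] at h3
  push_cast at h3
  linarith [h3.1]

theorem exists_big (φ : V → V → Fin r) {η : ℝ} (hη : (r : ℝ) * η ≤ 1 / 2)
    (z : V) {U : Finset V} (hU : 3 ≤ U.card) : ∃ c, Big φ η z U c := by
  by_contra hno
  push Not at hno
  have h1 : ((U.erase z).card : ℝ) = ∑ c : Fin r, ((cls φ z U c).card : ℝ) := by
    rw [← Nat.cast_sum]
    congr 1
    rw [Finset.card_eq_sum_card_fiberwise (f := φ z) (t := Finset.univ)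
      (fun x _ => Finset.mem_univ _)]
    apply Finset.sum_congr rfl
    intro c _
    congr 1
    ext u
    simp only [cls, Finset.mem_filter, Finset.mem_erase]
    tauto
  have h2 : ∑ c : Fin r, ((cls φ z U c).card : ℝ) ≤ ∑ c : Fin r, (U.card : ℝ) * η := by
    apply Finset.sum_le_sum
    intro c _
    have := hno c
    unfold Big at this
    push Not at this
    exact this.le
  rw [Finset.sum_const, Finset.card_univ, Fintype.card_fin, nsmul_eq_mul] at h2
  have h3 : (U.card : ℝ) - 1 ≤ ((U.erase z).card : ℝ) := by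
    have h4 : U.card - 1 ≤ (U.erase z).card := Finset.pred_card_le_card_erase
    have h5 : U.card ≤ (U.erase z).card + 1 := by omega
    have h6 : (U.card : ℝ) ≤ ((U.erase z).card : ℝ) + 1 := by exact_mod_cast h5
    linarith
  have h7 : (3 : ℝ) ≤ (U.card : ℝ) := by exact_mod_cast hU
  have h8 : (r : ℝ) * ((U.card : ℝ) * η) ≤ (U.card : ℝ) * (1 / 2) := by
    have : (r : ℝ) * ((U.card : ℝ) * η) = (U.card : ℝ) * ((r : ℝ) * η) := by ring
    rw [this]
    exact mul_le_mul_of_nonneg_left hη (by linarith)
  linarith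

open scoped Classical in
/-- The pattern: a colour used on a large part of `U`. -/
noncomputable def pat (φ : V → V → Fin r) (η : ℝ) (hr : 0 < r) (z : V) (U : Finset V) : Fin r :=
  if h : ∃ c, Big φ η z U c then h.choose else ⟨0, hr⟩

theorem pat_big (φ : V → V → Fin r) {η : ℝ} (hr : 0 < r) (hη : (r : ℝ) * η ≤ 1 / 2)
    (z : V) {U : Finset V} (hU : 3 ≤ U.card) : Big φ η z U (pat φ η hr z U) := by
  unfold pat
  rw [dif_pos (exists_big φ hη z hU)]
  exact (exists_big φ hη z hU).choose_spec

/-- `a` has many neighbours in the part of `b`. -/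
def Deg (G : SimpleGraph V) [DecidableRel G.Adj] (P : Finpartition (Finset.univ : Finset V))
    (η : ℝ) (r : ℕ) (a b : V) : Prop :=
  2 * r * η * ((P.part b).card : ℝ) ≤ (((P.part b).filter (fun w => G.Adj a w)).card : ℝ)

/-- The cleaned graph. -/
def clean (G : SimpleGraph V) [DecidableRel G.Adj] (P : Finpartition (Finset.univ : Finset V))
    (η : ℝ) (r : ℕ) : SimpleGraph V where
  Adj a b := (G.regularityReduced P η (2 * η)).Adj a b ∧ Deg G P η r a b ∧ Deg G P η r b a
  symm := ⟨fun _ _ h => ⟨h.1.symm, h.2.2, h.2.1⟩⟩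
  loopless := ⟨fun a h => (G.regularityReduced P η (2 * η)).loopless.irrefl a h.1⟩

theorem clean_le (P : Finpartition (Finset.univ : Finset V)) (η : ℝ) (r : ℕ) :
    clean G P η r ≤ G := fun _ _ h => SimpleGraph.regularityReduced_le h.1

theorem clean_unif {P : Finpartition (Finset.univ : Finset V)} {η : ℝ} {r : ℕ} {a b : V}
    (h : (clean G P η r).Adj a b) : G.IsUniform η (P.part a) (P.part b) ∧
      2 * η ≤ (G.edgeDensity (P.part a) (P.part b) : ℝ) := by
  obtain ⟨⟨_, U, hU, W, hW, ha, hb, _, hun, hd⟩, _⟩ := h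
  rw [P.part_eq_of_mem hU ha, P.part_eq_of_mem hW hb]
  exact ⟨hun, hd⟩

section pattern

variable {φ : V → V → Fin r} {P : Finpartition (Finset.univ : Finset V)} {η : ℝ}

theorem pat_ne (hφ : ∀ z u v, u ≠ z → v ≠ z → G.Adj u v → φ z u ≠ φ z v) (hr : 0 < r)
    (hη : (r : ℝ) * η ≤ 1 / 2) (hP : ∀ U ∈ P.parts, 3 ≤ U.card)
    {a b : V} (h : (clean G P η r).Adj a b) (z : V) :
    pat φ η hr z (P.part a) ≠ pat φ η hr z (P.part b) := by
  intro heq
  obtain ⟨hun, hd⟩ := clean_unif h
  have ha : 3 ≤ (P.part a).card := hP _ (P.part_mem.mpr (Finset.mem_univ a))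
  have hb : 3 ≤ (P.part b).card := hP _ (P.part_mem.mpr (Finset.mem_univ b))
  have h1 := pat_big φ hr hη z ha
  have h2 := pat_big φ hr hη z hb
  rw [← heq] at h2
  exact big_disj hφ hun hd h1 h2

theorem pat_surj (hφ : ∀ z u v, u ≠ z → v ≠ z → G.Adj u v → φ z u ≠ φ z v) (hr : 0 < r)
    (hη : (r : ℝ) * η ≤ 1 / 2) (hP : ∀ U ∈ P.parts, 3 ≤ U.card)
    {Q : Finset V} (hQ : (clean G P η r).IsNClique r Q) (z : V) (c : Fin r) :
    ∃ u ∈ Q, pat φ η hr z (P.part u) = c := by
  have h1 : (Q.image (fun u => pat φ η hr z (P.part u))).card = r := by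
    rw [Finset.card_image_of_injOn, hQ.card_eq]
    intro u hu v hv huv
    by_contra hne
    exact pat_ne hφ hr hη hP (hQ.isClique hu hv hne) z huv
  have h2 : Q.image (fun u => pat φ η hr z (P.part u)) = Finset.univ := by
    apply Finset.eq_univ_of_card
    rw [h1, Fintype.card_fin]
  have h3 : c ∈ Q.image (fun u => pat φ η hr z (P.part u)) := by
    rw [h2]; exact Finset.mem_univ c
  rw [Finset.mem_image] at h3
  obtain ⟨v, hv, hvc⟩ := h3
  exact ⟨v, hv, hvc⟩

/-- The colours of the vertices of cliques follow the pattern. -/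
theorem col_eq_pat (hφ : ∀ z u v, u ≠ z → v ≠ z → G.Adj u v → φ z u ≠ φ z v) (hr : 0 < r)
    (hη : (r : ℝ) * η ≤ 1 / 2) (hP : ∀ U ∈ P.parts, 3 ≤ U.card)
    (hP' : ∀ U ∈ P.parts, 1 ≤ (r : ℝ) * η * U.card)
    {Q : Finset V} (hQ : (clean G P η r).IsNClique r Q) {v z : V} (hv : v ∈ Q) (hvz : v ≠ z) :
    φ z v = pat φ η hr z (P.part v) := by
  obtain ⟨u, hu, hc⟩ := pat_surj hφ hr hη hP hQ z (φ z v)
  by_cases huv : u = v
  · rw [← hc, huv]
  exfalso
  have hadj := hQ.isClique hv hu (Ne.symm huv)
  have hdeg : Deg G P η r v u := hadj.2.1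
  have hPu : P.part u ∈ P.parts := P.part_mem.mpr (Finset.mem_univ u)
  set U := P.part u with hU
  -- the other colours are not big
  have hsmall : ∀ c, c ≠ φ z v → ((cls φ z U c).card : ℝ) ≤ (U.card : ℝ) * η := by
    intro c hc'
    obtain ⟨u', hu', hcu'⟩ := pat_surj hφ hr hη hP hQ z c
    have hne : u' ≠ u := by
      rintro rfl
      exact hc' (hcu'.symm.trans hc)
    obtain ⟨hun, hd⟩ := clean_unif (hQ.isClique hu hu' (Ne.symm hne))
    have h2 := pat_big φ hr hη z (hP _ (P.part_mem.mpr (Finset.mem_univ u')))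
    rw [hcu'] at h2
    by_contra hlt
    push Not at hlt
    exact big_disj hφ hun hd (show Big φ η z (P.part u) c from hlt.le) h2
  -- count the neighbours of `v` in `U`
  have hsub : U.filter (fun w => G.Adj v w) ⊆
      insert z ((Finset.univ.filter (fun c => c ≠ φ z v)).biUnion (fun c => cls φ z U c)) := by
    intro w hw
    rw [Finset.mem_filter] at hw
    rw [Finset.mem_insert, Finset.mem_biUnion]
    by_cases hwz : w = z
    · left; exact hwz
    · right
      refine ⟨φ z w, ?_, ?_⟩
      · rw [Finset.mem_filter]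
        exact ⟨Finset.mem_univ _, fun h => hφ z v w hvz hwz hw.2 h.symm⟩
      · simp only [cls, Finset.mem_filter]
        exact ⟨hw.1, hwz, trivial⟩
  have h1 : ((U.filter (fun w => G.Adj v w)).card : ℝ) ≤ 1 + ((r : ℝ) - 1) * ((U.card : ℝ) * η) := by
    have h2 := (Finset.card_le_card hsub).trans (Finset.card_insert_le _ _)
    have h3 := Finset.card_biUnion_le (s := Finset.univ.filter (fun c => c ≠ φ z v))
      (t := fun c => cls φ z U c)
    have h4 : ((U.filter (fun w => G.Adj v w)).card : ℝ) ≤
        1 + ∑ c ∈ Finset.univ.filter (fun c => c ≠ φ z v), ((cls φ z U c).card : ℝ) := by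
      rw [← Nat.cast_sum]
      exact_mod_cast (by omega : (U.filter (fun w => G.Adj v w)).card ≤
        1 + ∑ c ∈ Finset.univ.filter (fun c => c ≠ φ z v), (cls φ z U c).card)
    have h5 : ∑ c ∈ Finset.univ.filter (fun c => c ≠ φ z v), ((cls φ z U c).card : ℝ) ≤
        ∑ c ∈ Finset.univ.filter (fun c => c ≠ φ z v), (U.card : ℝ) * η := by
      apply Finset.sum_le_sum
      intro c hc'
      rw [Finset.mem_filter] at hc'
      exact hsmall c hc'.2
    have h6 : (Finset.univ.filter (fun c : Fin r => c ≠ φ z v)).card = r - 1 := by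
      rw [Finset.filter_ne', Finset.card_erase_of_mem (Finset.mem_univ _), Finset.card_univ,
        Fintype.card_fin]
    rw [Finset.sum_const, h6, nsmul_eq_mul, Nat.cast_sub (by omega)] at h5
    push_cast at h5
    linarith
  unfold Deg at hdeg
  have h2 := hP' U hPu
  have hηp : 0 < (U.card : ℝ) * η := by
    by_contra hneg
    push Not at hneg
    have : (r : ℝ) * η * U.card = r * ((U.card : ℝ) * η) := by ring
    have hr' : (0 : ℝ) ≤ r := Nat.cast_nonneg r
    nlinarith
  nlinarith

/-- The vertices in cliques of the cleaned graph. -/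
def InCl (H : SimpleGraph V) (r : ℕ) (v : V) : Prop := ∃ Q : Finset V, H.IsNClique r Q ∧ v ∈ Q

/-- Partners exist. -/
theorem exists_partner (hnc : ¬ G.Colorable r)
    (hφ : ∀ z u v, u ≠ z → v ≠ z → G.Adj u v → φ z u ≠ φ z v) (x : V) (c : Fin r) :
    ∃ w, G.Adj x w ∧ φ x w = c := by
  by_contra hno
  push Not at hno
  apply hnc
  refine ⟨SimpleGraph.Coloring.mk (fun u => if u = x then c else φ x u) ?_⟩
  intro u v huv
  by_cases hu : u = x
  · by_cases hv : v = x
    · exact absurd (hu.trans hv.symm) huv.ne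
    · rw [if_pos hu, if_neg hv]
      subst hu
      exact (hno v huv).symm
  · by_cases hv : v = x
    · rw [if_neg hu, if_pos hv]
      subst hv
      exact hno u huv.symm
    · rw [if_neg hu, if_neg hv]
      exact hφ x u v hu hv huv

open scoped Classical in
/-- The set up for the clique argument, with a bounded number of exceptional vertices. -/
theorem exists_setup (hnc : ¬ G.Colorable r)
    (hφ : ∀ z u v, u ≠ z → v ≠ z → G.Adj u v → φ z u ≠ φ z v) (hr : 0 < r)
    (hη : (r : ℝ) * η ≤ 1 / 2) (hP : ∀ U ∈ P.parts, 3 ≤ U.card)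
    (hP' : ∀ U ∈ P.parts, 1 ≤ (r : ℝ) * η * U.card) (hfree : G.CliqueFree (r + 1))
    (hcard : 3 ≤ Fintype.card V) :
    ∃ (p : V → V) (Ag B : Finset V), Setup G (clean G P η r) r φ p Ag B ∧
      (Finset.univ \ (Ag ∪ B)).card ≤ P.parts.card ^ 2 * r ^ P.parts.card := by
  have hp : ∀ x, ∃ w, G.Adj x w ∧ φ x w = pat φ η hr x (P.part x) :=
    fun x => exists_partner hnc hφ x _
  choose p hpadj hpcol using hp
  let A : Finset V := Finset.univ.filter (fun v => InCl (clean G P η r) r v)
  have hA : ∀ v, v ∈ A ↔ InCl (clean G P η r) r v := by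
    intro v; simp [A]
  let Ag : Finset V := A.filter (fun v => p v ∉ A)
  let B : Finset V := Finset.univ \ A
  have hcolA : ∀ v ∈ A, ∀ z, v ≠ z → φ z v = pat φ η hr z (P.part v) := by
    intro v hv z hvz
    obtain ⟨Q, hQ, hvQ⟩ := (hA v).mp hv
    exact col_eq_pat hφ hr hη hP hP' hQ hvQ hvz
  refine ⟨p, Ag, B, ?_, ?_⟩
  · refine ⟨hφ, clean_le P η r, hfree, fun y _ => hpadj y, ?_, ?_, ?_, ?_⟩
    · intro y hy
      simp only [Ag, Finset.mem_filter] at hy
      simp only [B, Finset.mem_sdiff, Finset.mem_univ, true_and]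
      exact hy.2
    · intro q hq Q hQ hqQ
      simp only [B, Finset.mem_sdiff, Finset.mem_univ, true_and] at hq
      exact hq ((hA q).mpr ⟨Q, hQ, hqQ⟩)
    · intro y _ Q hQ hyQ v hvQ hvy
      have hvA : v ∈ A := (hA v).mpr ⟨Q, hQ, hvQ⟩
      rw [hpcol y, hcolA v hvA y hvy]
      exact pat_ne hφ hr hη hP (hQ.isClique hyQ hvQ (Ne.symm hvy)) y
    · rw [Finset.disjoint_left]
      intro y hy hyB
      simp only [Ag, Finset.mem_filter] at hy
      simp only [B, Finset.mem_sdiff, Finset.mem_univ, true_and] at hyB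
      exact hyB hy.1
  · -- the exceptional vertices
    have hbad : ∀ x ∈ Finset.univ \ (Ag ∪ B), x ∈ A ∧ p x ∈ A := by
      intro x hx
      simp only [Ag, B, Finset.mem_sdiff, Finset.mem_union, Finset.mem_filter, Finset.mem_univ,
        true_and, not_or, not_and, not_not] at hx
      exact ⟨hx.2, hx.1 hx.2⟩
    let f : V → (Finset V × Finset V) × (P.parts → Fin r) :=
      fun x => ((P.part x, P.part (p x)), fun U => pat φ η hr x U.1)
    have hinj : Set.InjOn f (Finset.univ \ (Ag ∪ B) : Finset V) := by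
      intro x hx x' hx' hxx
      by_contra hne
      obtain ⟨hxA, hpxA⟩ := hbad x hx
      obtain ⟨hxA', hpxA'⟩ := hbad x' hx'
      simp only [f, Prod.mk.injEq] at hxx
      obtain ⟨⟨h1, h2⟩, h3⟩ := hxx
      have hpat : ∀ v, pat φ η hr x (P.part v) = pat φ η hr x' (P.part v) := by
        intro v
        exact congrFun h3 ⟨P.part v, P.part_mem.mpr (Finset.mem_univ v)⟩
      by_cases hpx : p x = x'
      · obtain ⟨z, hz⟩ : ∃ z, z ∉ ({x, x'} : Finset V) := by
          by_contra hno
          push Not at hno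
          have h4 : ({x, x'} : Finset V) = Finset.univ := by
            ext z; simp only [Finset.mem_univ, iff_true]; exact hno z
          have h5 : ({x, x'} : Finset V).card ≤ 2 := Finset.card_le_two
          rw [h4, Finset.card_univ] at h5
          omega
        simp only [Finset.mem_insert, Finset.mem_singleton, not_or] at hz
        have h4 := hcolA x hxA z (Ne.symm hz.1)
        have h5 := hcolA x' hxA' z (Ne.symm hz.2)
        have h6 := hpadj x
        rw [hpx] at h6
        exact hφ z x x' (Ne.symm hz.1) (Ne.symm hz.2) h6 (by rw [h4, h5, h1])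
      · have h4 := hcolA x hxA x' hne
        have h5 := hcolA (p x) hpxA x' hpx
        have h6 := hcolA (p x) hpxA x (hpadj x).ne'
        refine hφ x' x (p x) hne hpx (hpadj x) ?_
        rw [h4, h5, ← hpat x, ← hpat (p x), ← h6, hpcol x]
    have hmaps : ∀ x ∈ Finset.univ \ (Ag ∪ B), f x ∈
        (P.parts ×ˢ P.parts) ×ˢ (Finset.univ : Finset (P.parts → Fin r)) := by
      intro x _
      simp only [f, Finset.mem_product, Finset.mem_univ, and_true]
      exact ⟨P.part_mem.mpr (Finset.mem_univ _), P.part_mem.mpr (Finset.mem_univ _)⟩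
    have h7 := Finset.card_le_card_of_injOn f hmaps hinj
    refine h7.trans (le_of_eq ?_)
    rw [Finset.card_product, Finset.card_product, Finset.card_univ, Fintype.card_fun,
      Fintype.card_fin, Fintype.card_coe]
    ring

end pattern

theorem dg_le (H : SimpleGraph V) (U : Finset V) (v : V) : dg H U v ≤ Fintype.card V := by
  classical
  unfold dg
  exact (Finset.card_filter_le _ _).trans (Finset.card_le_univ _)

/-- Removing a few vertices. -/
theorem ee_sdiff (H : SimpleGraph V) (S : Finset V) :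
    ee H Finset.univ ≤ ee H (Finset.univ \ S) + 2 * S.card * Fintype.card V := by
  classical
  induction S using Finset.induction_on with
  | empty => simp
  | insert v S hv ih =>
    have h1 : v ∈ Finset.univ \ S := by simp [hv]
    have h2 := ee_erase H h1
    have h3 : (Finset.univ \ S).erase v = Finset.univ \ insert v S := by
      ext u; simp only [Finset.mem_erase, Finset.mem_sdiff, Finset.mem_univ, true_and,
        Finset.mem_insert, not_or]
    rw [h3] at h2
    have h4 := dg_le H (Finset.univ \ S) v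
    rw [Finset.card_insert_of_notMem hv]
    nlinarith

theorem ee_eq_edges (H : SimpleGraph V) [DecidableRel H.Adj] :
    ee H Finset.univ = 2 * H.edgeFinset.card := by
  classical
  rw [← SimpleGraph.sum_degrees_eq_twice_card_edges, ee]
  apply Finset.sum_congr rfl
  intro u _
  unfold dg
  rw [← SimpleGraph.card_neighborFinset_eq_degree]
  congr 1
  ext v
  simp

/-- The cleaned graph has almost all edges of the reduced graph. -/
theorem ee_reduced_le (P : Finpartition (Finset.univ : Finset V)) {η : ℝ} (hη : 0 ≤ η) (r : ℕ) :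
    (ee (G.regularityReduced P η (2 * η)) Finset.univ : ℝ) ≤
      ee (clean G P η r) Finset.univ + 4 * r * η * (Fintype.card V : ℝ) ^ 2 := by
  classical
  set R := G.regularityReduced P η (2 * η) with hR
  set H := clean G P η r with hH
  -- the pairs without the degree condition
  have hD : ∑ a : V, ((Finset.univ.filter (fun b => G.Adj a b ∧ ¬ Deg G P η r a b)).card : ℝ) ≤
      2 * r * η * (Fintype.card V : ℝ) ^ 2 := by
    have h1 : ∀ a : V, ((Finset.univ.filter (fun b => G.Adj a b ∧ ¬ Deg G P η r a b)).card : ℝ) ≤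
        2 * r * η * (Fintype.card V : ℝ) := by
      intro a
      have h2 : Finset.univ.filter (fun b => G.Adj a b ∧ ¬ Deg G P η r a b) ⊆
          P.parts.biUnion (fun U => if 2 * r * η * (U.card : ℝ) ≤
            ((U.filter (fun w => G.Adj a w)).card : ℝ) then ∅ else U.filter (fun w => G.Adj a w)) := by
        intro b hb
        rw [Finset.mem_filter] at hb
        rw [Finset.mem_biUnion]
        refine ⟨P.part b, P.part_mem.mpr (Finset.mem_univ b), ?_⟩
        have h3 : ¬ (2 * r * η * ((P.part b).card : ℝ) ≤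
          (((P.part b).filter (fun w => G.Adj a w)).card : ℝ)) := hb.2.2
        rw [if_neg h3, Finset.mem_filter]
        exact ⟨P.mem_part_self.mpr (Finset.mem_univ b), hb.2.1⟩
      have h4 : ((Finset.univ.filter (fun b => G.Adj a b ∧ ¬ Deg G P η r a b)).card : ℝ) ≤
          ∑ U ∈ P.parts, (((if 2 * r * η * (U.card : ℝ) ≤
            ((U.filter (fun w => G.Adj a w)).card : ℝ) then (∅ : Finset V) else
              U.filter (fun w => G.Adj a w)).card : ℕ) : ℝ) := by
        rw [← Nat.cast_sum]
        exact_mod_cast (Finset.card_le_card h2).trans Finset.card_biUnion_le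
      refine h4.trans ?_
      have h5 : ∑ U ∈ P.parts, (((if 2 * r * η * (U.card : ℝ) ≤
            ((U.filter (fun w => G.Adj a w)).card : ℝ) then (∅ : Finset V) else
              U.filter (fun w => G.Adj a w)).card : ℕ) : ℝ) ≤
          ∑ U ∈ P.parts, 2 * r * η * (U.card : ℝ) := by
        apply Finset.sum_le_sum
        intro U _
        split_ifs with h6
        · rw [Finset.card_empty, Nat.cast_zero]
          positivity
        · push Not at h6
          exact h6.le
      refine h5.trans (le_of_eq ?_)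
      rw [← Finset.mul_sum, ← Nat.cast_sum, P.sum_card_parts, Finset.card_univ]
    calc ∑ a : V, ((Finset.univ.filter (fun b => G.Adj a b ∧ ¬ Deg G P η r a b)).card : ℝ)
        ≤ ∑ a : V, 2 * r * η * (Fintype.card V : ℝ) := Finset.sum_le_sum (fun a _ => h1 a)
      _ = 2 * r * η * (Fintype.card V : ℝ) ^ 2 := by
          rw [Finset.sum_const, Finset.card_univ, nsmul_eq_mul]; ring
  have hsym : ∑ a : V, ((Finset.univ.filter (fun b => G.Adj a b ∧ ¬ Deg G P η r b a)).card : ℝ) =
      ∑ a : V, ((Finset.univ.filter (fun b => G.Adj a b ∧ ¬ Deg G P η r a b)).card : ℝ) := by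
    have h1 := Finset.sum_card_bipartiteAbove_eq_sum_card_bipartiteBelow
      (s := (Finset.univ : Finset V)) (t := (Finset.univ : Finset V))
      (fun a b => G.Adj a b ∧ ¬ Deg G P η r b a)
    rw [← Nat.cast_sum, ← Nat.cast_sum]
    congr 1
    refine Eq.trans h1 ?_
    apply Finset.sum_congr rfl
    intro b _
    congr 1
    ext a
    simp only [Finset.mem_filter, Finset.mem_univ, true_and, Finset.bipartiteBelow]
    rw [G.adj_comm]
  have hpt : ∀ a : V, (dg R Finset.univ a : ℝ) ≤ dg H Finset.univ a +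
      ((Finset.univ.filter (fun b => G.Adj a b ∧ ¬ Deg G P η r a b)).card : ℝ) +
      ((Finset.univ.filter (fun b => G.Adj a b ∧ ¬ Deg G P η r b a)).card : ℝ) := by
    intro a
    have h1 : (Finset.univ.filter (fun b => R.Adj a b)) ⊆
        ((Finset.univ.filter (fun b => H.Adj a b)) ∪
        (Finset.univ.filter (fun b => G.Adj a b ∧ ¬ Deg G P η r a b))) ∪
        (Finset.univ.filter (fun b => G.Adj a b ∧ ¬ Deg G P η r b a)) := by
      intro b hb
      simp only [Finset.mem_filter, Finset.mem_univ, true_and, Finset.mem_union] at hb ⊢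
      have hG : G.Adj a b := SimpleGraph.regularityReduced_le hb
      by_cases h2 : Deg G P η r a b
      · by_cases h3 : Deg G P η r b a
        · left; left; exact ⟨hb, h2, h3⟩
        · right; exact ⟨hG, h3⟩
      · left; right; exact ⟨hG, h2⟩
    have h2 := (Finset.card_le_card h1).trans ((Finset.card_union_le _ _).trans
      (Nat.add_le_add_right (Finset.card_union_le _ _) _))
    have h3 : dg R Finset.univ a ≤ dg H Finset.univ a +
        (Finset.univ.filter (fun b => G.Adj a b ∧ ¬ Deg G P η r a b)).card +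
        (Finset.univ.filter (fun b => G.Adj a b ∧ ¬ Deg G P η r b a)).card := by
      have e1 : dg R Finset.univ a = (Finset.univ.filter (fun b => R.Adj a b)).card := by
        unfold dg; congr
      have e2 : dg H Finset.univ a = (Finset.univ.filter (fun b => H.Adj a b)).card := by
        unfold dg; congr
      rw [e1, e2]
      exact h2
    exact_mod_cast h3
  calc (ee R Finset.univ : ℝ) = ∑ a : V, (dg R Finset.univ a : ℝ) := by
        unfold ee; push_cast; rfl
    _ ≤ ∑ a : V, ((dg H Finset.univ a : ℝ) +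
      ((Finset.univ.filter (fun b => G.Adj a b ∧ ¬ Deg G P η r a b)).card : ℝ) +
      ((Finset.univ.filter (fun b => G.Adj a b ∧ ¬ Deg G P η r b a)).card : ℝ)) :=
        Finset.sum_le_sum (fun a _ => hpt a)
    _ = (ee H Finset.univ : ℝ) +
      ∑ a : V, ((Finset.univ.filter (fun b => G.Adj a b ∧ ¬ Deg G P η r a b)).card : ℝ) +
      ∑ a : V, ((Finset.univ.filter (fun b => G.Adj a b ∧ ¬ Deg G P η r b a)).card : ℝ) := by
        rw [Finset.sum_add_distrib, Finset.sum_add_distrib]
        congr 2
        unfold ee; push_cast; rfl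
    _ ≤ _ := by rw [hsym]; linarith

end reg

end Pool.Agent.NH74.F053
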