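import Mathlib
import Pool.Agent.NH74.F053.Regular

/-!
Upper bound for the number of edges of vertex-critical graphs.
-/

namespace Pool.Agent.NH74.F053

open Finset SzemerediRegularity

/-- For `r ≥ 3` a graph `G` on `n` vertices which is not `r`-colourable, such that `G - x` is
`r`-colourable for all `x`, has at most `(1/2) (1 - 1/(r-1) + ε) n ^ 2` edges if `n` is large. -/
theorem upper_bound (r : ℕ) (hr : 3 ≤ r) (ε : ℝ) (hε : 0 < ε) :
    ∃ n₀ : ℕ, ∀ (V : Type) [Fintype V] (G : SimpleGraph V) [DecidableRel G.Adj],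
      n₀ ≤ Fintype.card V → ¬ G.Colorable r → (∀ x, (G.induce {x}ᶜ).Colorable r) →
      2 * (G.edgeFinset.card : ℝ) ≤
        (((r : ℝ) - 2) / ((r : ℝ) - 1) + ε) * (Fintype.card V : ℝ) ^ 2 := by
  set ε' : ℝ := min ε 1 with hε'
  have hε'0 : 0 < ε' := lt_min hε one_pos
  have hε'1 : ε' ≤ 1 := min_le_right _ _
  have hε'ε : ε' ≤ ε := min_le_left _ _
  have hr0 : (3 : ℝ) ≤ r := by exact_mod_cast hr
  set ε₁ : ℝ := ε' / (r + 4) with hε₁
  have hε₁0 : 0 < ε₁ := by positivity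
  set l : ℕ := ⌈4 / ε₁⌉₊ with hl
  set M : ℕ := bound (ε₁ / 8) l with hM
  have hM0 : 0 < M := bound_pos _ _
  set T : ℕ := max 3 ⌈1 / ((r : ℝ) * (ε₁ / 8))⌉₊ with hT
  set K : ℕ := M ^ 2 * r ^ M with hK
  refine ⟨max (max l (M * T)) (max (2 * r + 2) ⌈(4 + 4 * (K : ℝ)) / ε'⌉₊), ?_⟩
  intro V _ G _ hn hnc hcr
  classical
  set n := Fintype.card V with hn'
  have hn1 : l ≤ n := le_trans (le_trans (le_max_left _ _) (le_max_left _ _)) hn
  have hn2 : M * T ≤ n := le_trans (le_trans (le_max_right _ _) (le_max_left _ _)) hn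
  have hn3 : 2 * r + 2 ≤ n := le_trans (le_trans (le_max_left _ _) (le_max_right _ _)) hn
  have hn4 : (4 + 4 * (K : ℝ)) / ε' ≤ (n : ℝ) := by
    have h1 : ⌈(4 + 4 * (K : ℝ)) / ε'⌉₊ ≤ n :=
      le_trans (le_trans (le_max_right _ _) (le_max_right _ _)) hn
    exact (Nat.le_ceil _).trans (by exact_mod_cast h1)
  have hne : Nonempty V := Fintype.card_pos_iff.mp (by omega)
  -- the colourings
  have hφ : ∃ φ : V → V → Fin r, ∀ z u v, u ≠ z → v ≠ z → G.Adj u v → φ z u ≠ φ z v := by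
    refine ⟨fun z u => if h : u ≠ z then (hcr z).some ⟨u, h⟩ else ⟨0, by omega⟩, ?_⟩
    intro z u v hu hv huv
    simp only [dif_pos hu, dif_pos hv]
    exact (hcr z).some.valid (v := ⟨u, hu⟩) (w := ⟨v, hv⟩) huv
  obtain ⟨φ, hφ⟩ := hφ
  -- no large clique
  have hfree : G.CliqueFree (r + 1) := by
    intro Q hQ
    obtain ⟨x, hx⟩ : ∃ x, x ∉ Q := by
      by_contra hno
      push Not at hno
      have h1 : Q = Finset.univ := by
        ext z; simp only [Finset.mem_univ, iff_true]; exact hno z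
      have h2 := hQ.card_eq
      rw [h1, Finset.card_univ] at h2
      omega
    have h1 : (Q.image (φ x)).card = r + 1 := by
      rw [Finset.card_image_of_injOn, hQ.card_eq]
      intro u hu v hv huv
      by_contra hne'
      exact hφ x u v (fun h => hx (h ▸ hu)) (fun h => hx (h ▸ hv)) (hQ.isClique hu hv hne') huv
    have h2 := Finset.card_le_univ (Q.image (φ x))
    rw [h1, Fintype.card_fin] at h2
    omega
  obtain ⟨P, hP1, hP2, hP3, hP4⟩ := szemeredi_regularity G (by positivity : 0 < ε₁ / 8) hn1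
  have hl4 : 4 / ε₁ ≤ (P.parts.card : ℝ) := (Nat.le_ceil _).trans (by exact_mod_cast hP2)
  have haux := SimpleGraph.regularityReduced_edges_card_aux (G := G) hε₁0 hP1 hP4 hl4
  set η : ℝ := ε₁ / 8 with hη
  have h2η : ε₁ / 4 = 2 * η := by rw [hη]; ring
  rw [h2η] at haux
  have hη0 : 0 < η := by positivity
  have hparts : ∀ U ∈ P.parts, T ≤ U.card := by
    intro U hU
    have h1 := hP1.average_le_card_part hU
    have hpc : 0 < P.parts.card := Finset.card_pos.mpr ⟨U, hU⟩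
    have h2 : T ≤ Fintype.card V / P.parts.card := by
      rw [Nat.le_div_iff_mul_le hpc]
      calc T * P.parts.card ≤ T * M := Nat.mul_le_mul_left _ hP3
        _ = M * T := Nat.mul_comm _ _
        _ ≤ n := hn2
    rw [Finset.card_univ] at h1
    exact h2.trans h1
  have hU3 : ∀ U ∈ P.parts, 3 ≤ U.card := fun U hU => (le_max_left _ _).trans (hparts U hU)
  have hU1 : ∀ U ∈ P.parts, 1 ≤ (r : ℝ) * η * U.card := by
    intro U hU
    have h1 : ⌈1 / ((r : ℝ) * η)⌉₊ ≤ U.card := (le_max_right _ _).trans (hparts U hU)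
    have h2 : 1 / ((r : ℝ) * η) ≤ (U.card : ℝ) := (Nat.le_ceil _).trans (by exact_mod_cast h1)
    have h3 : 0 < (r : ℝ) * η := by positivity
    rw [div_le_iff₀ h3] at h2
    linarith
  have hrη : (r : ℝ) * η ≤ 1 / 2 := by
    have h1 : (r : ℝ) * ε₁ ≤ 1 := by
      rw [hε₁, mul_div_assoc', div_le_one (by positivity)]
      nlinarith
    rw [hη]
    linarith
  obtain ⟨p, Ag, B, hS, hbad⟩ := exists_setup (P := P) hnc hφ (by omega : 0 < r) hrη hU3 hU1 hfree
    (by omega)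
  have hee := ee_bound hS hr (by omega) _ Ag rfl (Finset.Subset.refl _)
  set H := clean G P η r with hH
  set S := Finset.univ \ (Ag ∪ B) with hSdef
  have hS1 : Finset.univ \ S = Ag ∪ B := by
    rw [hSdef]; ext u; simp
  have hsd := ee_sdiff H S
  rw [hS1] at hsd
  have hSK : S.card ≤ K := by
    refine hbad.trans ?_
    rw [hK]
    have hr1 : 1 ≤ r := by omega
    exact Nat.mul_le_mul (Nat.pow_le_pow_left hP3 2) (Nat.pow_le_pow_right hr1 hP3)
  have hm : (Ag ∪ B).card ≤ n := Finset.card_le_univ _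
  have hred := ee_reduced_le (G := G) P hη0.le r
  rw [← hH] at hred
  have hG := ee_eq_edges G
  have hR := ee_eq_edges (G.regularityReduced P η (2 * η))
  -- real numbers
  have e1 : (ee (G.regularityReduced P η (2 * η)) Finset.univ : ℝ) =
      2 * ((G.regularityReduced P η (2 * η)).edgeFinset.card : ℝ) := by
    rw [hR]; push_cast; rfl
  have e2 : ((r : ℝ) - 1) * (ee H (Ag ∪ B) : ℝ) ≤ ((r : ℝ) - 2) * (n : ℝ) ^ 2 +
      2 * ((r : ℝ) - 1) * n := by
    have h1 : (r - 1) * ee H (Ag ∪ B) ≤ (r - 2) * n ^ 2 + 2 * (r - 1) * n :=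
      hee.trans (Nat.add_le_add (Nat.mul_le_mul_left _ (Nat.pow_le_pow_left hm 2))
        (Nat.mul_le_mul_left _ hm))
    have h2 : (((r - 1 : ℕ) : ℝ)) * (ee H (Ag ∪ B) : ℝ) ≤ ((r - 2 : ℕ) : ℝ) * (n : ℝ) ^ 2 +
      2 * ((r - 1 : ℕ) : ℝ) * n := by exact_mod_cast h1
    rw [Nat.cast_sub (by omega), Nat.cast_sub (by omega)] at h2
    push_cast at h2
    exact h2
  have e3 : (ee H Finset.univ : ℝ) ≤ (ee H (Ag ∪ B) : ℝ) + 2 * K * n := by
    have h1 : ee H Finset.univ ≤ ee H (Ag ∪ B) + 2 * K * n :=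
      hsd.trans (Nat.add_le_add_left (Nat.mul_le_mul_right _ (Nat.mul_le_mul_left _ hSK)) _)
    exact_mod_cast h1
  have hr1 : (0 : ℝ) < (r : ℝ) - 1 := by linarith
  have e4 : (ee H (Ag ∪ B) : ℝ) ≤ ((r : ℝ) - 2) / ((r : ℝ) - 1) * (n : ℝ) ^ 2 + 2 * n := by
    rw [← sub_nonneg] at e2 ⊢
    have h1 : ((r : ℝ) - 2) / ((r : ℝ) - 1) * (n : ℝ) ^ 2 + 2 * n - (ee H (Ag ∪ B) : ℝ) =
        (((r : ℝ) - 2) * (n : ℝ) ^ 2 + 2 * ((r : ℝ) - 1) * n -
          ((r : ℝ) - 1) * (ee H (Ag ∪ B) : ℝ)) / ((r : ℝ) - 1) := by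
      field_simp
    rw [h1]
    exact div_nonneg e2 hr1.le
  have hn0 : (0 : ℝ) < n := by
    have : 0 < n := by omega
    exact_mod_cast this
  have e5 : (2 + 2 * (K : ℝ)) * n ≤ ε' / 2 * (n : ℝ) ^ 2 := by
    rw [div_le_iff₀ hε'0] at hn4
    nlinarith
  have e6 : 2 * ε₁ * (n : ℝ) ^ 2 + 4 * r * η * (n : ℝ) ^ 2 = ε' / 2 * (n : ℝ) ^ 2 := by
    rw [hη, hε₁]
    field_simp
    ring
  have e7 : ε' * (n : ℝ) ^ 2 ≤ ε * (n : ℝ) ^ 2 := by gcongr
  push_cast at haux
  nlinarith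

end Pool.Agent.NH74.F053
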